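import Mathlib

/-!
# MP_af75b4_an: choice of signs, and an inequality of Chebyshev type
-/

set_option autoImplicit false

open MeasureTheory Metric Set Filter Topology

namespace Pool.Agent.Helper855K

variable {X : Type*} [MeasurableSpace X] {ν : Measure X}

theorem memLp_sq_integrable {f : X → ℂ} (hf : MemLp f 2 ν) :
    Integrable (fun x => ‖f x‖ ^ 2) ν := by
  have h := hf.integrable_norm_pow (p := 2) (by norm_num)
  exact h

theorem parallelogram {f g : X → ℂ} (hf : MemLp f 2 ν) (hg : MemLp g 2 ν) :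
    (∫ x, ‖f x + g x‖ ^ 2 ∂ν) + (∫ x, ‖f x - g x‖ ^ 2 ∂ν) =
      2 * (∫ x, ‖f x‖ ^ 2 ∂ν) + 2 * (∫ x, ‖g x‖ ^ 2 ∂ν) := by
  have h1 := memLp_sq_integrable (hf.add hg)
  have h2 := memLp_sq_integrable (hf.sub hg)
  have h3 := memLp_sq_integrable hf
  have h4 := memLp_sq_integrable hg
  simp only [Pi.add_apply, Pi.sub_apply] at h1 h2
  rw [← integral_add h1 h2, ← integral_const_mul, ← integral_const_mul,
    ← integral_add (h3.const_mul 2) (h4.const_mul 2)]
  refine integral_congr_ae (Eventually.of_forall fun x => ?_)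
  have := parallelogram_law_with_norm ℝ (f x) (g x)
  simp only
  nlinarith

/-- the signs can be chosen so that the square integral of the sum is at least the sum of the
square integrals -/
theorem exists_signs {ι : Type*} (s : Finset ι) {g : ι → X → ℂ}
    (hg : ∀ i, MemLp (g i) 2 ν) :
    ∃ ε : ι → ℝ, (∀ i, |ε i| = 1) ∧
      ∑ i ∈ s, (∫ x, ‖g i x‖ ^ 2 ∂ν) ≤ ∫ x, ‖∑ i ∈ s, (ε i : ℂ) * g i x‖ ^ 2 ∂ν := by
  classical
  induction s using Finset.induction_on with
  | empty => exact ⟨fun _ => 1, by simp, by simp⟩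
  | insert a s ha ih =>
    obtain ⟨ε, hε, h⟩ := ih
    have hsum : MemLp (fun x => ∑ i ∈ s, (ε i : ℂ) * g i x) 2 ν :=
      memLp_finsetSum s fun i _ => (hg i).const_mul _
    have hpar := parallelogram hsum (hg a)
    have hupd : ∀ c : ℝ, ∀ x, ∑ i ∈ s, ((Function.update ε a c i : ℝ) : ℂ) * g i x =
        ∑ i ∈ s, (ε i : ℂ) * g i x := by
      intro c x
      refine Finset.sum_congr rfl fun i hi => ?_
      have : i ≠ a := fun h => ha (h ▸ hi)
      rw [Function.update_of_ne this]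
    by_cases hc : (∫ x, ‖∑ i ∈ s, (ε i : ℂ) * g i x‖ ^ 2 ∂ν) + (∫ x, ‖g a x‖ ^ 2 ∂ν) ≤
        ∫ x, ‖∑ i ∈ s, (ε i : ℂ) * g i x + g a x‖ ^ 2 ∂ν
    · refine ⟨Function.update ε a 1, ?_, ?_⟩
      · intro i
        by_cases hi : i = a
        · subst hi; simp
        · rw [Function.update_of_ne hi]; exact hε i
      · rw [Finset.sum_insert ha]
        simp only [Finset.sum_insert ha, Function.update_self, hupd, Complex.ofReal_one, one_mul]
        have e : (∫ x, ‖g a x + ∑ i ∈ s, (ε i : ℂ) * g i x‖ ^ 2 ∂ν) =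
            ∫ x, ‖∑ i ∈ s, (ε i : ℂ) * g i x + g a x‖ ^ 2 ∂ν := by
          simp only [add_comm]
        rw [e]
        linarith
    · push Not at hc
      refine ⟨Function.update ε a (-1), ?_, ?_⟩
      · intro i
        by_cases hi : i = a
        · subst hi; simp
        · rw [Function.update_of_ne hi]; exact hε i
      · rw [Finset.sum_insert ha]
        simp only [Finset.sum_insert ha, Function.update_self, hupd]
        have e : (∫ x, ‖((-1 : ℝ) : ℂ) * g a x + ∑ i ∈ s, (ε i : ℂ) * g i x‖ ^ 2 ∂ν) =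
            ∫ x, ‖∑ i ∈ s, (ε i : ℂ) * g i x - g a x‖ ^ 2 ∂ν := by
          refine integral_congr_ae (Eventually.of_forall fun x => ?_)
          simp only
          congr 2
          push_cast
          ring
        rw [e]
        linarith

theorem sq_le_threshold {p T a : ℝ} (hp : 2 < p) (hT : 0 < T) (ha : 0 ≤ a) :
    a ^ 2 ≤ T ^ 2 + T ^ (2 - p) * a ^ p := by
  rcases le_total a T with h | h
  · have : 0 ≤ T ^ (2 - p) * a ^ p := by positivity
    have h2 : a ^ 2 ≤ T ^ 2 := by nlinarith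
    linarith
  · have ha' : 0 < a := lt_of_lt_of_le hT h
    have h1 : a ^ 2 = a ^ (2 - p) * a ^ p := by
      rw [← Real.rpow_add ha']
      have : 2 - p + p = ((2 : ℕ) : ℝ) := by push_cast; ring
      rw [this, Real.rpow_natCast]
    have h2 : a ^ (2 - p) ≤ T ^ (2 - p) :=
      Real.rpow_le_rpow_of_nonpos hT h (by linarith)
    have h3 : a ^ (2 - p) * a ^ p ≤ T ^ (2 - p) * a ^ p :=
      mul_le_mul_of_nonneg_right h2 (by positivity)
    have : 0 ≤ T ^ 2 := by positivity
    linarith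

/-- a function whose square integral is at least `c` on a set of measure at most `η` has a large
integral of the `p`-th power -/
theorem lower_p [IsFiniteMeasure ν] {f : X → ℂ} {p c η : ℝ} (hp : 2 < p) (hc : 0 < c) (hη : 0 < η)
    {S : Set X} (hν : ν.real S ≤ η)
    (hf2 : IntegrableOn (fun x => ‖f x‖ ^ 2) S ν) (hfp : Integrable (fun x => ‖f x‖ ^ p) ν)
    (h : c ≤ ∫ x in S, ‖f x‖ ^ 2 ∂ν) :
    c / 2 * (c / (2 * η)) ^ ((p - 2) / 2) ≤ ∫ x, ‖f x‖ ^ p ∂ν := by
  set T : ℝ := Real.sqrt (c / (2 * η)) with hTd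
  have hT0 : 0 < T := Real.sqrt_pos.2 (by positivity)
  have hT2 : T ^ 2 = c / (2 * η) := Real.sq_sqrt (by positivity)
  have h1 : ∫ x in S, ‖f x‖ ^ 2 ∂ν ≤ ∫ x in S, (T ^ 2 + T ^ (2 - p) * ‖f x‖ ^ p) ∂ν := by
    apply integral_mono hf2
    · exact (integrable_const _).add (hfp.integrableOn.const_mul _)
    · intro x
      exact sq_le_threshold hp hT0 (norm_nonneg _)
  rw [integral_add (integrable_const _) (hfp.integrableOn.const_mul _), integral_const,
    integral_const_mul] at h1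
  have h2 : ∫ x in S, ‖f x‖ ^ p ∂ν ≤ ∫ x, ‖f x‖ ^ p ∂ν :=
    setIntegral_le_integral hfp (Eventually.of_forall fun x => by positivity)
  have h3 : (ν.restrict S).real univ • T ^ 2 ≤ c / 2 := by
    rw [smul_eq_mul, measureReal_restrict_apply_univ, hT2]
    calc ν.real S * (c / (2 * η)) ≤ η * (c / (2 * η)) :=
          mul_le_mul_of_nonneg_right hν (by positivity)
      _ = c / 2 := by field_simp
  have h4 : c / 2 ≤ T ^ (2 - p) * ∫ x, ‖f x‖ ^ p ∂ν := by
    have h5 : T ^ (2 - p) * ∫ x in S, ‖f x‖ ^ p ∂ν ≤ T ^ (2 - p) * ∫ x, ‖f x‖ ^ p ∂ν :=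
      mul_le_mul_of_nonneg_left h2 (by positivity)
    linarith
  have h5 : (c / (2 * η)) ^ ((p - 2) / 2) = T ^ (p - 2) := by
    rw [← hT2, ← Real.rpow_natCast, ← Real.rpow_mul hT0.le]
    congr 1
    push_cast
    ring
  rw [h5]
  have h6 : T ^ (p - 2) * T ^ (2 - p) = 1 := by
    rw [← Real.rpow_add hT0]
    simp
  calc c / 2 * T ^ (p - 2) ≤ (T ^ (2 - p) * ∫ x, ‖f x‖ ^ p ∂ν) * T ^ (p - 2) :=
        mul_le_mul_of_nonneg_right h4 (by positivity)
    _ = (T ^ (p - 2) * T ^ (2 - p)) * ∫ x, ‖f x‖ ^ p ∂ν := by ring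
    _ = ∫ x, ‖f x‖ ^ p ∂ν := by rw [h6, one_mul]

end Pool.Agent.Helper855K
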