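import Pool.Agent.Helper855K.Sum
import Pool.Agent.Helper855K.Sign

/-!
# MP_af75b4_an: the eigenfunctions
-/

set_option autoImplicit false

open MeasureTheory Metric Set Filter Topology

namespace Pool.Agent.Helper855K

variable {P n : ℕ}

theorem beam_continuous (B : OrthonormalBasis (Fin 3) ℝ (E 2)) (K : ℕ) :
    Continuous (beam B K) := by
  unfold beam
  exact ((Lf_contDiff B).continuous).pow _

theorem norm_beam_le_one (B : OrthonormalBasis (Fin 3) ℝ (E 2)) (K : ℕ) {x : E 2}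
    (hx : ‖x‖ = 1) : ‖beam B K x‖ ≤ 1 := by
  rw [norm_beam _ _ hx]
  have h := abs_real_inner_le_norm (B 0) x
  rw [B.norm_eq_one, hx, mul_one] at h
  apply pow_le_one₀
  · have := sq_abs (inner ℝ (B 0) x)
    nlinarith [abs_nonneg (inner ℝ (B 0) x)]
  · nlinarith [sq_nonneg (inner ℝ (B 0) x)]

theorem beam_memLp (B : OrthonormalBasis (Fin 3) ℝ (E 2)) (K : ℕ) (S : Set (E 2)) :
    MemLp (beam B K) 2 ((dV 2).restrict S) := by
  refine MemLp.of_bound (beam_continuous B K).aestronglyMeasurable 1 ?_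
  filter_upwards [ae_restrict_of_ae (dV_ae 2)] with x hx
  exact norm_beam_le_one B K hx

/-- the signed sum of beams -/
noncomputable def eSum (J M K : ℕ) (ε : (Fin J → Fin P) → ℝ) (x : E 2) : ℂ :=
  ∑ t : Fin J → Fin P, (ε t : ℂ) * beam (Bt J M t) K x

theorem eSum_continuous (J M K : ℕ) (ε : (Fin J → Fin P) → ℝ) :
    Continuous (eSum J M K ε) := by
  unfold eSum
  exact continuous_finsetSum _ fun t _ => continuous_const.mul (beam_continuous _ _)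

theorem eSum_norm_le (J M K : ℕ) {ε : (Fin J → Fin P) → ℝ} (hε : ∀ t, |ε t| = 1) (x : E 2) :
    ‖eSum J M K ε x‖ ≤ ∑ t : Fin J → Fin P, ‖beam (Bt J M t) K x‖ := by
  unfold eSum
  refine (norm_sum_le _ _).trans (Finset.sum_le_sum fun t _ => ?_)
  rw [norm_mul, Complex.norm_real, Real.norm_eq_abs, hε t, one_mul]

theorem eSum_bound (J M K : ℕ) {ε : (Fin J → Fin P) → ℝ} (hε : ∀ t, |ε t| = 1) {x : E 2}
    (hx : ‖x‖ = 1) : ‖eSum J M K ε x‖ ≤ Fintype.card (Fin J → Fin P) := by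
  refine (eSum_norm_le J M K hε x).trans ?_
  calc ∑ t : Fin J → Fin P, ‖beam (Bt J M t) K x‖ ≤ ∑ t : Fin J → Fin P, (1 : ℝ) :=
        Finset.sum_le_sum fun t _ => norm_beam_le_one _ _ hx
    _ = _ := by simp

theorem eSum_integrable (J M K : ℕ) {ε : (Fin J → Fin P) → ℝ} (hε : ∀ t, |ε t| = 1) {p : ℝ}
    (hp : 0 ≤ p) : Integrable (fun x => ‖eSum J M K ε x‖ ^ p) (dV 2) := by
  refine Integrable.of_bound (C := ((Fintype.card (Fin J → Fin P) : ℝ)) ^ p) ?_ ?_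
  · exact ((eSum_continuous J M K ε).norm.rpow_const fun x => Or.inr hp).aestronglyMeasurable
  · filter_upwards [dV_ae 2] with x hx
    rw [Real.norm_eq_abs, abs_of_nonneg (by positivity)]
    exact Real.rpow_le_rpow (norm_nonneg _) (eSum_bound J M K hε hx) hp

theorem eSum_isEigenfunction (J M K : ℕ) (ε : (Fin J → Fin P) → ℝ) {lam : ℝ}
    (hlam : lam ^ 2 = (2 * K + 2) * (2 * K + 3)) : IsEigenfunction 2 lam (eSum J M K ε) :=
  IsEigenfunction.sum Finset.univ fun t _ => (beam_isEigenfunction (Bt J M t) K hlam).smul (ε t)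

/-- lower bound for the square integral of one beam on the compressed region -/
theorem beam_sq_lower {J M K : ℕ} (hM : 2 ≤ M) (hPM : P ≤ M)
    (hK : ((K : ℝ) + 1) * (((M : ℝ)⁻¹) ^ J) ^ 2 = 1 / 2) (t : Fin J → Fin P) :
    3 / 1024 * ((M : ℝ)⁻¹) ^ J ≤
      ∫ x in ⋃ t : Fin J → Fin P, Tt J M t, ‖beam (Bt J M t) K x‖ ^ 2 ∂(dV 2) := by
  set δ : ℝ := ((M : ℝ)⁻¹) ^ J with hδ
  have hint : ∀ S : Set (E 2), IntegrableOn (fun x => ‖beam (Bt J M t) K x‖ ^ 2) S (dV 2) :=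
    fun S => memLp_sq_integrable (beam_memLp (Bt J M t) K S)
  have h1 : ∫ x in Tt J M t, ‖beam (Bt J M t) K x‖ ^ 2 ∂(dV 2) ≤
      ∫ x in ⋃ t : Fin J → Fin P, Tt J M t, ‖beam (Bt J M t) K x‖ ^ 2 ∂(dV 2) := by
    apply setIntegral_mono_set (hint _) (Eventually.of_forall fun x => by positivity)
    exact (subset_iUnion (fun t : Fin J → Fin P => Tt J M t) t).eventuallyLE
  have h2 : ∫ x in Tt J M t, (1 / 4 : ℝ) ∂(dV 2) ≤
      ∫ x in Tt J M t, ‖beam (Bt J M t) K x‖ ^ 2 ∂(dV 2) := by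
    apply setIntegral_mono_ae_restrict (integrable_const _) (hint _)
    filter_upwards [ae_restrict_of_ae (dV_ae 2), ae_restrict_mem (Tt_measurable J M t)]
      with x hx hxT
    obtain ⟨h0, -, -, h3⟩ := hxT
    have hx0 : x 0 ≤ 1 := by
      have h4 : ‖x 0‖ ≤ ‖x‖ := PiLp.norm_apply_le x 0
      rw [Real.norm_eq_abs, hx] at h4
      exact (le_abs_self _).trans h4
    have hδ0 : 0 ≤ δ := by rw [hδ]; positivity
    have h4 : |ell J M t x| ≤ δ := h3.trans (by nlinarith)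
    have h5 : (ell J M t x) ^ 2 ≤ δ ^ 2 := by
      rw [← sq_abs]; exact pow_le_pow_left₀ (abs_nonneg _) h4 2
    have h6 : ((K : ℝ) + 1) * (ell J M t x) ^ 2 ≤ 1 / 2 := by
      rw [← hK]
      exact mul_le_mul_of_nonneg_left h5 (by positivity)
    have h7 := beam_lower t hx h6
    nlinarith
  rw [setIntegral_const, smul_eq_mul] at h2
  have h3 := Tt_lower hM hPM t
  have h4 : 3 / 1024 * δ ≤ (dV 2).real (Tt J M t) * (1 / 4) := by
    rw [hδ]; linarith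
  linarith

/-- the eigenfunction with the two estimates -/
theorem exists_eigen {J M K : ℕ} (hJ : 0 < J) (hM : 2 ≤ M) (hJM : J ≤ M) (hPM : P ≤ M)
    (hP : ((P : ℝ) - 1) ≤ (1 - 4 / J) * ((M : ℝ) - 1))
    (hK : ((K : ℝ) + 1) * (((M : ℝ)⁻¹) ^ J) ^ 2 = 1 / 2)
    (hN : 1 / 256 ≤ ((P : ℝ) ^ J) * ((M : ℝ)⁻¹) ^ J) {p : ℝ} (hp : 2 < p) :
    ∃ e : E 2 → ℂ, Continuous e ∧
      (∀ lam : ℝ, lam ^ 2 = (2 * K + 2) * (2 * K + 3) → IsEigenfunction 2 lam e) ∧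
      (∫ x in band 2, ‖e x‖ ^ p ∂(dV 2)) ≤ C0 ^ p * (dV 2).real univ ∧
      3 / 524288 * (3 / 524288 * J) ^ ((p - 2) / 2) ≤ ∫ x, ‖e x‖ ^ p ∂(dV 2) := by
  have hJr : (0 : ℝ) < J := by exact_mod_cast hJ
  set S : Set (E 2) := ⋃ t : Fin J → Fin P, Tt J M t with hS
  obtain ⟨ε, hε, hsum⟩ := exists_signs (ν := (dV 2).restrict S) Finset.univ
    (g := fun t : Fin J → Fin P => beam (Bt J M t) K) fun t => beam_memLp _ _ _
  have hp0 : 0 ≤ p := by linarith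
  refine ⟨eSum J M K ε, eSum_continuous J M K ε, fun lam hlam => eSum_isEigenfunction J M K ε hlam,
    ?_, ?_⟩
  · have h1 : ∀ᵐ x ∂((dV 2).restrict (band 2)), ‖eSum J M K ε x‖ ^ p ≤ C0 ^ p := by
      filter_upwards [ae_restrict_mem (band_measurable 2)] with x hx
      exact Real.rpow_le_rpow (norm_nonneg _)
        ((eSum_norm_le J M K hε x).trans (sum_beams hJ hM hJM hPM hP hK hx)) hp0
    have h2 : (∫ x in band 2, ‖eSum J M K ε x‖ ^ p ∂(dV 2)) ≤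
        ∫ x in band 2, C0 ^ p ∂(dV 2) :=
      integral_mono_ae (eSum_integrable J M K hε hp0).integrableOn (integrable_const _) h1
    rw [setIntegral_const, smul_eq_mul, mul_comm] at h2
    refine h2.trans ?_
    apply mul_le_mul_of_nonneg_left _ (by have := C0_pos; positivity)
    exact measureReal_mono (subset_univ _) (measure_ne_top _ _)
  · have h1 : (3 / 262144 : ℝ) ≤ ∫ x in S, ‖eSum J M K ε x‖ ^ 2 ∂(dV 2) := by
      refine le_trans ?_ hsum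
      have h2 : ∑ t : Fin J → Fin P, 3 / 1024 * ((M : ℝ)⁻¹) ^ J ≤
          ∑ t : Fin J → Fin P, ∫ x in S, ‖beam (Bt J M t) K x‖ ^ 2 ∂(dV 2) :=
        Finset.sum_le_sum fun t _ => beam_sq_lower hM hPM hK t
      refine le_trans ?_ h2
      rw [Finset.sum_const, Finset.card_univ, Fintype.card_fun, Fintype.card_fin,
        Fintype.card_fin, nsmul_eq_mul]
      push_cast
      have h3 : (P : ℝ) ^ J * (3 / 1024 * ((M : ℝ)⁻¹) ^ J) =
          3 / 1024 * ((P : ℝ) ^ J * ((M : ℝ)⁻¹) ^ J) := by ring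
      rw [h3]
      linarith
    have hint : IntegrableOn (fun x => ‖eSum J M K ε x‖ ^ 2) S (dV 2) := by
      have h := (eSum_integrable J M K hε (p := 2) (by norm_num)).integrableOn (s := S)
      simpa using h
    have h2 := lower_p (ν := dV 2) hp (c := 3 / 262144) (by norm_num) (η := 1 / J)
      (by positivity) (S := S) (union_upper hJ hM hPM) hint
      (eSum_integrable J M K hε hp0) h1
    have e1 : (3 / 262144 : ℝ) / 2 = 3 / 524288 := by norm_num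
    have e2 : (3 / 262144 : ℝ) / (2 * (1 / J)) = 3 / 524288 * J := by field_simp; norm_num
    rw [e1, e2] at h2
    exact h2

/-- the parameters -/
theorem exists_eigen' (k : ℕ) {p : ℝ} (hp : 2 < p) :
    ∃ lam : ℝ, 1 ≤ lam ∧ ((k : ℝ) + 1 ≤ lam) ∧ ∃ e : E 2 → ℂ, Continuous e ∧
      IsEigenfunction 2 lam e ∧
      (∫ x in band 2, ‖e x‖ ^ p ∂(dV 2)) ≤ C0 ^ p * (dV 2).real univ ∧
      3 / 524288 * (3 / 524288 * ((k : ℝ) + 1)) ^ ((p - 2) / 2) ≤ ∫ x, ‖e x‖ ^ p ∂(dV 2) := by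
  obtain ⟨J, hJd⟩ : ∃ J : ℕ, J = 8 * (k + 1) := ⟨_, rfl⟩
  obtain ⟨M, hMd⟩ : ∃ M : ℕ, M = J * J := ⟨_, rfl⟩
  obtain ⟨P, hPd⟩ : ∃ P : ℕ, P = J * J - 4 * J := ⟨_, rfl⟩
  obtain ⟨K, hKd⟩ : ∃ K : ℕ, K = 32 * (k + 1) * (k + 1) * M ^ (2 * J - 1) - 1 := ⟨_, rfl⟩
  have hJ8 : 8 ≤ J := by omega
  have hJ : 0 < J := by omega
  have h4J : 4 * J ≤ J * J := Nat.mul_le_mul_right J (by omega)
  have hM : 2 ≤ M := by
    have : 8 * 8 ≤ J * J := Nat.mul_le_mul hJ8 hJ8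
    omega
  have hJM : J ≤ M := by
    have : 1 * J ≤ J * J := Nat.mul_le_mul_right J (by omega)
    omega
  have hPM : P ≤ M := by omega
  have hJr : (0 : ℝ) < J := by exact_mod_cast hJ
  have hMr : (M : ℝ) = J * J := by rw [hMd]; push_cast; ring
  have hPr : (P : ℝ) = J * J - 4 * J := by
    rw [hPd, Nat.cast_sub h4J]; push_cast; ring
  have hP : ((P : ℝ) - 1) ≤ (1 - 4 / J) * ((M : ℝ) - 1) := by
    rw [hPr, hMr]
    have e : (1 - 4 / (J : ℝ)) * ((J : ℝ) * J - 1) = J * J - 4 * J - 1 + 4 / J := by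
      field_simp; ring
    rw [e]
    have : 0 < 4 / (J : ℝ) := by positivity
    linarith
  have hKpos : 1 ≤ 32 * (k + 1) * (k + 1) * M ^ (2 * J - 1) := by
    have : 0 < M := by omega
    exact Nat.one_le_iff_ne_zero.2 (by positivity)
  have hK1 : ((K : ℝ) + 1) = 32 * ((k : ℝ) + 1) * ((k : ℝ) + 1) * (M : ℝ) ^ (2 * J - 1) := by
    rw [hKd, Nat.cast_sub hKpos]
    push_cast
    ring
  have hM0 : (M : ℝ) ≠ 0 := by
    have : 0 < M := by omega
    positivity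
  have hJk : (J : ℝ) = 8 * ((k : ℝ) + 1) := by rw [hJd]; push_cast; ring
  have hK : ((K : ℝ) + 1) * (((M : ℝ)⁻¹) ^ J) ^ 2 = 1 / 2 := by
    rw [hK1]
    have e1 : (((M : ℝ)⁻¹) ^ J) ^ 2 = ((M : ℝ) ^ (2 * J))⁻¹ := by
      rw [← pow_mul, inv_pow, mul_comm J 2]
    have e2 : (M : ℝ) ^ (2 * J) = (M : ℝ) ^ (2 * J - 1) * M := by
      rw [← pow_succ]; congr 1; omega
    have e3 : (M : ℝ) = 64 * ((k : ℝ) + 1) * ((k : ℝ) + 1) := by rw [hMr, hJk]; ring
    have e4 : (M : ℝ) ^ (2 * J - 1) ≠ 0 := pow_ne_zero _ hM0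
    rw [e1, e2, mul_inv]
    have e5 : 32 * ((k : ℝ) + 1) * ((k : ℝ) + 1) = M / 2 := by rw [e3]; ring
    rw [e5]
    field_simp
  have hN : 1 / 256 ≤ ((P : ℝ) ^ J) * ((M : ℝ)⁻¹) ^ J := by
    rw [← mul_pow]
    have e1 : (P : ℝ) * (M : ℝ)⁻¹ = 1 + -(4 / J) := by
      rw [hPr, hMr]; field_simp; ring
    have e2 : 4 / (J : ℝ) ≤ 1 / 2 := by
      rw [div_le_iff₀ hJr]
      have : (8 : ℝ) ≤ J := by exact_mod_cast hJ8
      linarith
    have h3 : 1 + ((k + 1 : ℕ) : ℝ) * (-(4 / J)) ≤ (1 + -(4 / (J : ℝ))) ^ (k + 1) :=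
      one_add_mul_le_pow (by linarith) (k + 1)
    have e4 : 1 + ((k + 1 : ℕ) : ℝ) * (-(4 / (J : ℝ))) = 1 / 2 := by
      rw [hJk]; push_cast
      have : (k : ℝ) + 1 ≠ 0 := by positivity
      field_simp
      norm_num
    rw [e4] at h3
    rw [e1]
    calc (1 : ℝ) / 256 = (1 / 2) ^ 8 := by norm_num
      _ ≤ ((1 + -(4 / (J : ℝ))) ^ (k + 1)) ^ 8 := pow_le_pow_left₀ (by norm_num) h3 8
      _ = (1 + -(4 / (J : ℝ))) ^ J := by
        rw [← pow_mul]; congr 1; omega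
  obtain ⟨e, he1, he2, he3, he4⟩ := exists_eigen hJ hM hJM hPM hP hK hN hp
  have hlamsq : Real.sqrt ((2 * K + 2) * (2 * K + 3)) ^ 2 = (2 * K + 2) * (2 * K + 3) :=
    Real.sq_sqrt (by positivity)
  have hkK : (k : ℝ) + 1 ≤ (K : ℝ) + 1 := by
    have h1 : k + 1 ≤ 32 * (k + 1) * (k + 1) * M ^ (2 * J - 1) := by
      have hp : 1 ≤ M ^ (2 * J - 1) := Nat.one_le_pow _ _ (by omega)
      nlinarith [Nat.mul_le_mul (Nat.le_refl (32 * (k + 1) * (k + 1))) hp]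
    have h2 : ((k + 1 : ℕ) : ℝ) ≤ ((32 * (k + 1) * (k + 1) * M ^ (2 * J - 1) : ℕ) : ℝ) := by
      exact_mod_cast h1
    rw [hK1]
    push_cast at h2
    linarith
  have hlamK : (K : ℝ) + 1 ≤ Real.sqrt ((2 * K + 2) * (2 * K + 3)) := by
    apply Real.le_sqrt_of_sq_le
    have : (0 : ℝ) ≤ K := by positivity
    nlinarith
  refine ⟨Real.sqrt ((2 * K + 2) * (2 * K + 3)), ?_, hkK.trans hlamK, e, he1, he2 _ hlamsq, he3, ?_⟩
  · have : (0 : ℝ) ≤ k := by positivity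
    linarith
  · refine le_trans ?_ he4
    apply mul_le_mul_of_nonneg_left _ (by norm_num)
    apply Real.rpow_le_rpow (by positivity) _ (by linarith)
    rw [hJk]
    have : (0 : ℝ) ≤ k := by positivity
    linarith

end Pool.Agent.Helper855K
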