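import Mathlib

/-!
# MP_af75b4_an: definitions

The sphere `S^m` in `ℝ^(m+1)`, its Riemannian volume, the eigenfunctions of the Laplace-Beltrami
operator, great circles and their tubes, the tubular geometric control condition, and the
Logvinenko-Sereda property for eigenfunctions.
-/

set_option autoImplicit false

open MeasureTheory Metric Set Filter Topology InnerProductGeometry

namespace Pool.Agent.Helper855K

/-- The Euclidean space of dimension `m + 1`. -/
abbrev E (m : ℕ) : Type := EuclideanSpace ℝ (Fin (m + 1))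

/-- The Riemannian volume of the unit sphere `S^m`, as a measure on `ℝ^(m+1)` carried by
the sphere. -/
noncomputable def dV (m : ℕ) : Measure (E m) :=
  (volume : Measure (E m)).toSphere.map (Subtype.val)

/-- `e` (through its values on `S^m`) is an eigenfunction of frequency `lam`: the homogeneous
extension of degree zero `y ↦ e (y / ‖y‖)` is smooth away from the origin, and on the sphere its
Laplacian, which is the Laplace-Beltrami operator applied to `e`, equals `- lam ^ 2 * e`. -/
def IsEigenfunction (m : ℕ) (lam : ℝ) (e : E m → ℂ) : Prop :=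
  ContDiffOn ℝ (⊤ : ℕ∞) (fun y : E m => e (‖y‖⁻¹ • y)) {0}ᶜ ∧
  ∀ x : E m, ‖x‖ = 1 →
    Laplacian.laplacian (fun y : E m => e (‖y‖⁻¹ • y)) x = -((lam : ℂ) ^ 2) * e x

/-- The great circle through the orthonormal vectors `u`, `v`. -/
def greatCircle {m : ℕ} (u v : E m) : Set (E m) :=
  {x | ∃ t : ℝ, x = Real.cos t • u + Real.sin t • v}

/-- The tube of radius `R` around the great circle through `u`, `v`: the points of the sphere at
geodesic distance less than `R` from the circle. -/
def tube {m : ℕ} (u v : E m) (R : ℝ) : Set (E m) :=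
  {x | ‖x‖ = 1 ∧ ∃ y ∈ greatCircle u v, angle x y < R}

/-- The tubular geometric control condition. -/
def TGCC (m : ℕ) (A : ℝ → Set (E m)) : Prop :=
  ∃ c > (0 : ℝ), ∃ ρ > (0 : ℝ), ∀ u v : E m, ‖u‖ = 1 → ‖v‖ = 1 → inner ℝ u v = 0 →
    ∀ lam : ℝ, 1 ≤ lam →
      ρ * (dV m).real (tube u v (c * lam ^ (-(1 / 2) : ℝ)))
        ≤ (dV m).real (A lam ∩ tube u v (c * lam ^ (-(1 / 2) : ℝ)))

/-- The `L^p`-Logvinenko-Sereda property for eigenfunctions. -/
def IsLS (m : ℕ) (p : ℝ) (A : ℝ → Set (E m)) : Prop :=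
  ∃ C > (0 : ℝ), ∀ lam : ℝ, 1 ≤ lam → ∀ e : E m → ℂ, IsEigenfunction m lam e →
    C * ∫ x, ‖e x‖ ^ p ∂(dV m) ≤ ∫ x in A lam, ‖e x‖ ^ p ∂(dV m)

end Pool.Agent.Helper855K
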