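import Pool.Agent.Helper855K.Defs

/-!
# MP_af75b4_an: Gaussian beams are eigenfunctions
-/

set_option autoImplicit false

open MeasureTheory Metric Set Filter Topology InnerProductGeometry

namespace Pool.Agent.Helper855K

section line

variable {m : ℕ}

theorem line_deriv {u : E m → ℂ} {x v : E m} (hu : ContDiffAt ℝ 2 u x) :
    ∀ᶠ t in 𝓝 (0 : ℝ), HasDerivAt (fun t : ℝ => u (x + t • v)) (fderiv ℝ u (x + t • v) v) t := by
  have h1 : ∀ᶠ y in 𝓝 x, ContDiffAt ℝ 2 u y := hu.eventually (by simp)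
  have hc : Tendsto (fun t : ℝ => x + t • v) (𝓝 0) (𝓝 x) := by
    have : Continuous fun t : ℝ => x + t • v := by fun_prop
    have h2 := this.tendsto 0
    simpa using h2
  filter_upwards [hc.eventually h1] with t ht
  have hd : HasFDerivAt u (fderiv ℝ u (x + t • v)) (x + t • v) :=
    (ht.differentiableAt (by simp)).hasFDerivAt
  have hl : HasDerivAt (fun t : ℝ => x + t • v) v t := by
    have := ((hasDerivAt_id t).smul_const v).const_add x
    simpa using this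
  exact hd.comp_hasDerivAt t hl

theorem line_deriv2 {u : E m → ℂ} {x v : E m} (hu : ContDiffAt ℝ 2 u x) :
    HasDerivAt (fun t : ℝ => fderiv ℝ u (x + t • v) v) (iteratedFDeriv ℝ 2 u x (fun _ => v)) 0 := by
  have h1 : DifferentiableAt ℝ (fderiv ℝ u) x :=
    (hu.fderiv_right (m := 1) (by norm_num)).differentiableAt (by simp)
  rw [iteratedFDeriv_two_apply]
  have hl : HasDerivAt (fun t : ℝ => x + t • v) v 0 := by
    have := ((hasDerivAt_id (0 : ℝ)).smul_const v).const_add x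
    simpa using this
  have h2 : HasFDerivAt (fderiv ℝ u) (fderiv ℝ (fderiv ℝ u) x) (x + (0 : ℝ) • v) := by
    rw [zero_smul, add_zero]; exact h1.hasFDerivAt
  have h3 := h2.comp_hasDerivAt (0 : ℝ) hl
  have h4 := h3.clm_apply (hasDerivAt_const (0 : ℝ) v)
  simpa using h4

/-- second derivative along a line -/
theorem iteratedFDeriv_two_of_line {u : E m → ℂ} {x v : E m} (hu : ContDiffAt ℝ 2 u x)
    {g : ℝ → ℂ} {c : ℂ} (h1 : ∀ᶠ t in 𝓝 (0 : ℝ), HasDerivAt (fun t : ℝ => u (x + t • v)) (g t) t)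
    (h2 : HasDerivAt g c 0) : iteratedFDeriv ℝ 2 u x (fun _ => v) = c := by
  have e1 := line_deriv (v := v) hu
  have e2 := line_deriv2 (v := v) hu
  have e3 : (fun t : ℝ => fderiv ℝ u (x + t • v) v) =ᶠ[𝓝 0] g := by
    filter_upwards [e1, h1] with t ht ht'
    exact ht.unique ht'
  exact (e3.hasDerivAt_iff.1 e2).unique h2

end line

/-- `G a b = P^a / q^b` along a line -/
theorem hasDerivAt_G {P q : ℝ → ℂ} {P' q' : ℂ} {t : ℝ} (hP : HasDerivAt P P' t)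
    (hq : HasDerivAt q q' t) (h0 : q t ≠ 0) (a b : ℕ) :
    HasDerivAt (fun s => P s ^ (a + 1) * (q s ^ (b + 1))⁻¹)
      (((a : ℂ) + 1) * P' * (P t ^ a * (q t ^ (b + 1))⁻¹)
        - ((b : ℂ) + 1) * q' * (P t ^ (a + 1) * (q t ^ (b + 2))⁻¹)) t := by
  have h1 := hP.pow (a + 1)
  have h2 := (hq.pow (b + 1)).inv (pow_ne_zero _ h0)
  have h3 := h1.mul h2
  convert! h3 using 1
  simp only [Nat.add_sub_cancel, Nat.cast_add, Nat.cast_one, Pi.pow_apply, Pi.inv_apply]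
  field_simp
  ring

/-- the second derivative at `0` of `P^(2K+2) / q^(K+1)` for affine `P` and quadratic `q` -/
theorem second_G (K : ℕ) (L z : ℂ) (y : ℝ) :
    (∀ᶠ t : ℝ in 𝓝 (0 : ℝ), HasDerivAt
      (fun t : ℝ => (L + t * z) ^ (2 * K + 2) * ((1 + 2 * y * t + t ^ 2 : ℂ) ^ (K + 1))⁻¹)
      ((2 * K + 2) * z * ((L + t * z) ^ (2 * K + 1) * ((1 + 2 * y * t + t ^ 2 : ℂ) ^ (K + 1))⁻¹)
        - (K + 1) * (2 * y + 2 * t) *
          ((L + t * z) ^ (2 * K + 2) * ((1 + 2 * y * t + t ^ 2 : ℂ) ^ (K + 2))⁻¹)) t) ∧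
    HasDerivAt (fun t : ℝ =>
      (2 * K + 2) * z * ((L + t * z) ^ (2 * K + 1) * ((1 + 2 * y * t + t ^ 2 : ℂ) ^ (K + 1))⁻¹)
        - (K + 1) * (2 * y + 2 * t) *
          ((L + t * z) ^ (2 * K + 2) * ((1 + 2 * y * t + t ^ 2 : ℂ) ^ (K + 2))⁻¹))
      ((2 * K + 2) * (2 * K + 1) * z ^ 2 * L ^ (2 * K)
        - 8 * (K + 1) ^ 2 * (z * y) * L ^ (2 * K + 1)
        + 4 * (K + 1) * (K + 2) * y ^ 2 * L ^ (2 * K + 2)
        - 2 * (K + 1) * L ^ (2 * K + 2)) 0 := by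
  have hP : ∀ t : ℝ, HasDerivAt (fun t : ℝ => L + (t : ℂ) * z) z t := by
    intro t
    have h1 : HasDerivAt (fun t : ℝ => (t : ℂ)) 1 t := Complex.ofRealCLM.hasDerivAt
    have := (h1.mul_const z).const_add L
    simpa using this
  have hq : ∀ t : ℝ, HasDerivAt (fun t : ℝ => (1 + 2 * y * t + t ^ 2 : ℂ)) (2 * y + 2 * t) t := by
    intro t
    have h1 : HasDerivAt (fun t : ℝ => (t : ℂ)) 1 t := Complex.ofRealCLM.hasDerivAt
    have h2 := ((h1.const_mul (2 * (y : ℂ))).const_add 1).add (h1.pow 2)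
    convert! h2 using 1
    simp
  constructor
  · have hne : ∀ᶠ t : ℝ in 𝓝 (0 : ℝ), (1 + 2 * y * t + t ^ 2 : ℂ) ≠ 0 := by
      have hc : Continuous fun t : ℝ => (1 + 2 * y * t + t ^ 2 : ℂ) := by fun_prop
      have h0 : (1 + 2 * y * ((0 : ℝ) : ℂ) + ((0 : ℝ) : ℂ) ^ 2 : ℂ) ≠ 0 := by simp
      exact hc.continuousAt.eventually_ne h0
    filter_upwards [hne] with t ht
    have h := hasDerivAt_G (hP t) (hq t) ht (2 * K + 1) K
    convert! h using 1
    push_cast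
    ring
  · have h0 : (1 + 2 * y * ((0 : ℝ) : ℂ) + ((0 : ℝ) : ℂ) ^ 2 : ℂ) ≠ 0 := by simp
    have ha := hasDerivAt_G (hP 0) (hq 0) h0 (2 * K) K
    have hb := hasDerivAt_G (hP 0) (hq 0) h0 (2 * K + 1) (K + 1)
    have hc : HasDerivAt (fun t : ℝ => ((K : ℂ) + 1) * (2 * y + 2 * t)) (2 * ((K : ℂ) + 1)) 0 := by
      have h1 : HasDerivAt (fun t : ℝ => (t : ℂ)) 1 (0 : ℝ) := Complex.ofRealCLM.hasDerivAt
      have := ((h1.const_mul 2).const_add (2 * (y : ℂ))).const_mul ((K : ℂ) + 1)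
      convert! this using 1
      ring
    have h1 := (ha.const_mul ((2 * K + 2) * z)).sub (hc.mul hb)
    convert! h1 using 1
    simp
    ring

/-- the linear form `x ↦ x · (b₁ + i b₂)` -/
noncomputable def Lf (B : OrthonormalBasis (Fin 3) ℝ (E 2)) (x : E 2) : ℂ :=
  ((inner ℝ (B 1) x : ℝ) : ℂ) + Complex.I * ((inner ℝ (B 2) x : ℝ) : ℂ)

/-- the Gaussian beam along the great circle orthogonal to `B 0` -/
noncomputable def beam (B : OrthonormalBasis (Fin 3) ℝ (E 2)) (K : ℕ) (x : E 2) : ℂ :=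
  Lf B x ^ (2 * K + 2)

theorem Lf_smul (B : OrthonormalBasis (Fin 3) ℝ (E 2)) (r : ℝ) (x : E 2) :
    Lf B (r • x) = r * Lf B x := by
  unfold Lf
  rw [inner_smul_right, inner_smul_right]
  push_cast
  ring

theorem Lf_add (B : OrthonormalBasis (Fin 3) ℝ (E 2)) (x y : E 2) :
    Lf B (x + y) = Lf B x + Lf B y := by
  unfold Lf
  rw [inner_add_right, inner_add_right]
  push_cast
  ring

theorem Lf_contDiff (B : OrthonormalBasis (Fin 3) ℝ (E 2)) : ContDiff ℝ (⊤ : ℕ∞) (Lf B) := by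
  unfold Lf
  have h : ∀ i, ContDiff ℝ (⊤ : ℕ∞) (fun x : E 2 => ((inner ℝ (B i) x : ℝ) : ℂ)) := fun i =>
    Complex.ofRealCLM.contDiff.comp (contDiff_const.inner ℝ contDiff_id)
  exact (h 1).add (contDiff_const.mul (h 2))

theorem beam_ext (B : OrthonormalBasis (Fin 3) ℝ (E 2)) (K : ℕ) :
    (fun y : E 2 => beam B K (‖y‖⁻¹ • y)) =
      fun y => Lf B y ^ (2 * K + 2) * (((‖y‖ ^ 2 : ℝ) : ℂ) ^ (K + 1))⁻¹ := by
  funext y
  unfold beam
  rw [Lf_smul, mul_pow]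
  push_cast
  rw [← pow_mul, mul_comm (Lf B y ^ _)]
  congr 1
  rw [← inv_pow]
  congr 1

theorem beam_contDiffOn (B : OrthonormalBasis (Fin 3) ℝ (E 2)) (K : ℕ) :
    ContDiffOn ℝ (⊤ : ℕ∞) (fun y : E 2 => beam B K (‖y‖⁻¹ • y)) {0}ᶜ := by
  rw [beam_ext]
  intro y hy
  have hy0 : y ≠ 0 := hy
  have h1 : ContDiff ℝ (⊤ : ℕ∞) (fun y : E 2 => ((‖y‖ ^ 2 : ℝ) : ℂ)) :=
    Complex.ofRealCLM.contDiff.comp (contDiff_norm_sq ℝ)
  have h2 : (((‖y‖ ^ 2 : ℝ) : ℂ)) ^ (K + 1) ≠ 0 := by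
    apply pow_ne_zero
    rw [Ne, Complex.ofReal_eq_zero]
    exact pow_ne_zero _ (norm_ne_zero_iff.2 hy0)
  exact (((Lf_contDiff B).pow (2 * K + 2)).contDiffAt.mul
    ((h1.pow (K + 1)).contDiffAt.inv h2)).contDiffWithinAt

theorem Lf_basis (B : OrthonormalBasis (Fin 3) ℝ (E 2)) (x : E 2) (t : ℝ) (j : Fin 3) :
    Lf B (x + t • B j) = Lf B x + t * ![0, 1, Complex.I] j := by
  rw [Lf_add, Lf_smul]
  congr 2
  unfold Lf
  fin_cases j <;> simp [B.inner_eq_ite]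

theorem beam_isEigenfunction (B : OrthonormalBasis (Fin 3) ℝ (E 2)) (K : ℕ) {lam : ℝ}
    (hlam : lam ^ 2 = (2 * K + 2) * (2 * K + 3)) : IsEigenfunction 2 lam (beam B K) := by
  refine ⟨beam_contDiffOn B K, ?_⟩
  intro x hx
  have hx0 : x ≠ 0 := by
    intro h
    rw [h, norm_zero] at hx
    exact zero_ne_one hx
  have hC : ContDiffAt ℝ 2 (fun y : E 2 => beam B K (‖y‖⁻¹ • y)) x :=
    ((beam_contDiffOn B K).contDiffAt (isOpen_compl_singleton.mem_nhds hx0)).of_le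
      (WithTop.coe_le_coe.2 (le_top : (2 : ℕ∞) ≤ ⊤))
  rw [InnerProductSpace.laplacian_eq_iteratedFDeriv_orthonormalBasis _ B]
  have hk : ∀ j : Fin 3, iteratedFDeriv ℝ 2 (fun y : E 2 => beam B K (‖y‖⁻¹ • y)) x ![B j, B j] =
      ((2 * K + 2) * (2 * K + 1) * (![0, 1, Complex.I] j) ^ 2 * (Lf B x) ^ (2 * K)
        - 8 * (K + 1) ^ 2 * (![0, 1, Complex.I] j * (inner ℝ (B j) x : ℝ)) * (Lf B x) ^ (2 * K + 1)
        + 4 * (K + 1) * (K + 2) * ((inner ℝ (B j) x : ℝ) : ℂ) ^ 2 * (Lf B x) ^ (2 * K + 2)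
        - 2 * (K + 1) * (Lf B x) ^ (2 * K + 2)) := by
    intro j
    have hv : (![B j, B j] : Fin 2 → E 2) = fun _ => B j := by
      funext i; fin_cases i <;> rfl
    rw [hv]
    obtain ⟨h1, h2⟩ := second_G K (Lf B x) (![0, 1, Complex.I] j) (inner ℝ (B j) x)
    refine iteratedFDeriv_two_of_line hC ?_ h2
    filter_upwards [h1] with t ht
    have he : (fun t : ℝ => (fun y : E 2 => beam B K (‖y‖⁻¹ • y)) (x + t • B j)) =
        (fun t : ℝ => (Lf B x + t * ![0, 1, Complex.I] j) ^ (2 * K + 2) *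
          ((1 + 2 * ((inner ℝ (B j) x : ℝ) : ℂ) * t + t ^ 2 : ℂ) ^ (K + 1))⁻¹) := by
      funext t
      rw [beam_ext]
      simp only
      rw [Lf_basis]
      have hn : ‖x + t • B j‖ ^ 2 = 1 + 2 * inner ℝ (B j) x * t + t ^ 2 := by
        rw [norm_add_sq_real, hx, norm_smul, B.norm_eq_one, inner_smul_right,
          real_inner_comm]
        simp
        ring
      rw [hn]
      push_cast
      rfl
    rw [he]
    exact ht
  simp only [hk]
  rw [Fin.sum_univ_three]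
  have hpar : ((inner ℝ (B 0) x : ℝ) : ℂ) ^ 2 + ((inner ℝ (B 1) x : ℝ) : ℂ) ^ 2 +
      ((inner ℝ (B 2) x : ℝ) : ℂ) ^ 2 = 1 := by
    have h := B.sum_sq_norm_inner_right x
    rw [Fin.sum_univ_three, hx] at h
    simp only [Real.norm_eq_abs, sq_abs] at h
    have h2 := congrArg (fun r : ℝ => (r : ℂ)) h
    push_cast at h2
    rw [h2]; norm_num
  have hl : ((lam : ℂ)) ^ 2 = (2 * K + 2) * (2 * K + 3) := by
    have h2 := congrArg (fun r : ℝ => (r : ℂ)) hlam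
    push_cast at h2
    exact h2
  rw [hl]
  have hb : beam B K x = Lf B x ^ (2 * K) * Lf B x ^ 2 := by
    unfold beam; rw [pow_add]
  have hL : Lf B x = ((inner ℝ (B 1) x : ℝ) : ℂ) + Complex.I * ((inner ℝ (B 2) x : ℝ) : ℂ) := rfl
  rw [hb]
  have e1 : Lf B x ^ (2 * K + 1) = Lf B x ^ (2 * K) * Lf B x := pow_succ _ _
  have e2 : Lf B x ^ (2 * K + 2) = Lf B x ^ (2 * K) * Lf B x ^ 2 := pow_add _ _ _
  rw [e1, e2]
  simp only [Matrix.cons_val_zero, Matrix.cons_val_one, Matrix.cons_val]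
  have hI := Complex.I_sq
  have key : (8 : ℂ) * (K + 1) ^ 2 * (0 * ((inner ℝ (B 0) x : ℝ) : ℂ) +
      1 * ((inner ℝ (B 1) x : ℝ) : ℂ) + Complex.I * ((inner ℝ (B 2) x : ℝ) : ℂ)) =
      8 * (K + 1) ^ 2 * Lf B x := by rw [hL]; ring
  linear_combination (2 * K + 2) * (2 * K + 1) * Lf B x ^ (2 * K) * hI
    - (Lf B x ^ (2 * K) * Lf B x) * key
    + 4 * (K + 1) * (K + 2) * (Lf B x ^ (2 * K) * Lf B x ^ 2) * hpar

theorem IsEigenfunction.contDiffAt {m : ℕ} {lam : ℝ} {e : E m → ℂ} (h : IsEigenfunction m lam e)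
    {x : E m} (hx : ‖x‖ = 1) : ContDiffAt ℝ 2 (fun y : E m => e (‖y‖⁻¹ • y)) x := by
  have hx0 : x ≠ 0 := by
    intro h
    rw [h, norm_zero] at hx
    exact zero_ne_one hx
  exact (h.1.contDiffAt (isOpen_compl_singleton.mem_nhds hx0)).of_le (WithTop.coe_le_coe.2 (le_top : (2 : ℕ∞) ≤ ⊤))

theorem IsEigenfunction.zero (m : ℕ) (lam : ℝ) : IsEigenfunction m lam (fun _ => 0) := by
  refine ⟨contDiffOn_const, fun x _ => ?_⟩
  rw [InnerProductSpace.laplacian_const]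
  simp

theorem IsEigenfunction.add {m : ℕ} {lam : ℝ} {e f : E m → ℂ} (he : IsEigenfunction m lam e)
    (hf : IsEigenfunction m lam f) : IsEigenfunction m lam (fun x => e x + f x) := by
  refine ⟨he.1.add hf.1, fun x hx => ?_⟩
  have h := (he.contDiffAt hx).laplacian_add (hf.contDiffAt hx)
  have h2 : (fun y : E m => e (‖y‖⁻¹ • y)) + (fun y : E m => f (‖y‖⁻¹ • y)) =
    fun y : E m => e (‖y‖⁻¹ • y) + f (‖y‖⁻¹ • y) := rfl
  rw [h2] at h
  rw [h, he.2 x hx, hf.2 x hx]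
  ring

theorem IsEigenfunction.smul {m : ℕ} {lam : ℝ} {e : E m → ℂ} (c : ℝ)
    (he : IsEigenfunction m lam e) : IsEigenfunction m lam (fun x => c * e x) := by
  refine ⟨contDiffOn_const.mul he.1, fun x hx => ?_⟩
  have h := InnerProductSpace.laplacian_smul (𝕜 := ℝ) c (he.contDiffAt hx)
  have h2 : (c • (fun y : E m => e (‖y‖⁻¹ • y))) = fun y : E m => (c : ℂ) * e (‖y‖⁻¹ • y) := by
    funext y; simp
  rw [h2] at h
  rw [h, he.2 x hx]
  simp
  ring

theorem IsEigenfunction.sum {m : ℕ} {lam : ℝ} {ι : Type*} (s : Finset ι) {e : ι → E m → ℂ}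
    (he : ∀ i ∈ s, IsEigenfunction m lam (e i)) :
    IsEigenfunction m lam (fun x => ∑ i ∈ s, e i x) := by
  classical
  induction s using Finset.induction_on with
  | empty => simpa using IsEigenfunction.zero m lam
  | insert a s ha ih =>
    have h1 := he a (Finset.mem_insert_self a s)
    have h2 := ih fun i hi => he i (Finset.mem_insert_of_mem hi)
    have h3 := h1.add h2
    simp only [Finset.sum_insert ha]
    exact h3

end Pool.Agent.Helper855K
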