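import Pool.Agent.Helper855K.Meas

/-!
# MP_af75b4_an: the family of lines

`ell J M t x = x₂ - (1/8) ∑ⱼ dⱼ M^{-(j+1)} (x₁ - (1/8) ((j+1)/J) x₀)`, where the `dⱼ` are the digits
of `t`.
-/

set_option autoImplicit false

open MeasureTheory Metric Set Filter Topology

namespace Pool.Agent.Helper855K

variable {P n : ℕ}

/-- the digits of `t`, as real numbers, extended by zero -/
noncomputable def dig (t : Fin n → Fin P) (j : ℕ) : ℝ :=
  if h : j < n then ((t ⟨j, h⟩ : ℕ) : ℝ) else 0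

theorem dig_nonneg (t : Fin n → Fin P) (j : ℕ) : 0 ≤ dig t j := by
  unfold dig; split_ifs <;> positivity

theorem dig_le (t : Fin n → Fin P) {j : ℕ} (hj : j < n) : dig t j ≤ (P : ℝ) - 1 := by
  unfold dig
  rw [dif_pos hj]
  have h := (t ⟨j, hj⟩).2
  have h2 : ((t ⟨j, hj⟩ : ℕ) : ℝ) + 1 ≤ P := by exact_mod_cast h
  linarith

/-- the linear form whose zero set is the plane of the great circle with digits `t` -/
noncomputable def ell (J M : ℕ) (t : Fin n → Fin P) (x : E 2) : ℝ :=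
  x 2 - 1 / 8 * ∑ j ∈ Finset.range n,
    dig t j * ((M : ℝ)⁻¹) ^ (j + 1) * (x 1 - 1 / 8 * (((j : ℝ) + 1) / J) * x 0)

/-- the slope -/
noncomputable def al (M : ℕ) (t : Fin n → Fin P) : ℝ :=
  1 / 8 * ∑ j ∈ Finset.range n, dig t j * ((M : ℝ)⁻¹) ^ (j + 1)

/-- the intercept -/
noncomputable def be (J M : ℕ) (t : Fin n → Fin P) : ℝ :=
  1 / 64 * ∑ j ∈ Finset.range n, dig t j * ((M : ℝ)⁻¹) ^ (j + 1) * (((j : ℝ) + 1) / J)

theorem ell_eq (J M : ℕ) (t : Fin n → Fin P) (x : E 2) :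
    ell J M t x = x 2 - al M t * x 1 + be J M t * x 0 := by
  unfold ell al be
  rw [mul_assoc, Finset.sum_mul, mul_assoc (1 / 64 : ℝ), Finset.sum_mul, Finset.mul_sum,
    Finset.mul_sum, Finset.mul_sum, sub_add, ← Finset.sum_sub_distrib]
  congr 1
  refine Finset.sum_congr rfl fun j _ => ?_
  ring

theorem geomA {M : ℕ} (hM : 2 ≤ M) (K : ℕ) :
    ∑ i ∈ Finset.range K, ((M : ℝ) - 1) * ((M : ℝ)⁻¹) ^ (i + 1) = 1 - ((M : ℝ)⁻¹) ^ K := by
  have hM0 : (M : ℝ) ≠ 0 := by positivity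
  induction K with
  | zero => simp
  | succ K ih =>
    rw [Finset.sum_range_succ, ih]
    have : (M : ℝ) * (M : ℝ)⁻¹ = 1 := mul_inv_cancel₀ hM0
    have h2 : ((M : ℝ)⁻¹) ^ K = M * ((M : ℝ)⁻¹) ^ (K + 1) := by
      rw [pow_succ]; field_simp
    rw [h2]; ring

theorem geomA_le {M : ℕ} (hM : 2 ≤ M) (K : ℕ) :
    ∑ i ∈ Finset.range K, ((M : ℝ) - 1) * ((M : ℝ)⁻¹) ^ (i + 1) ≤ 1 := by
  rw [geomA hM]
  have : (0 : ℝ) ≤ ((M : ℝ)⁻¹) ^ K := by positivity
  linarith

theorem geomB {M : ℕ} (hM : 2 ≤ M) (K : ℕ) :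
    ∑ i ∈ Finset.range K, ((M : ℝ) - 1) * ((i : ℝ) + 1) * ((M : ℝ)⁻¹) ^ (i + 1)
      ≤ 2 - ((K : ℝ) + 2) * ((M : ℝ)⁻¹) ^ K := by
  have hM2 : (2 : ℝ) ≤ M := by exact_mod_cast hM
  have hM0 : (M : ℝ) ≠ 0 := by positivity
  induction K with
  | zero => simp
  | succ K ih =>
    rw [Finset.sum_range_succ]
    have h2 : ((M : ℝ)⁻¹) ^ K = M * ((M : ℝ)⁻¹) ^ (K + 1) := by
      rw [pow_succ]; field_simp
    rw [h2] at ih
    have h3 : (0 : ℝ) ≤ ((M : ℝ)⁻¹) ^ (K + 1) := by positivity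
    push_cast
    nlinarith [mul_nonneg h3 (by linarith : (0 : ℝ) ≤ M - 2)]

theorem geomB_le {M : ℕ} (hM : 2 ≤ M) (K : ℕ) :
    ∑ i ∈ Finset.range K, ((M : ℝ) - 1) * ((i : ℝ) + 1) * ((M : ℝ)⁻¹) ^ (i + 1) ≤ 2 := by
  have h := geomB hM K
  have : (0 : ℝ) ≤ ((K : ℝ) + 2) * ((M : ℝ)⁻¹) ^ K := by positivity
  linarith

/-- compression: the tail of the digits matters little -/
theorem ell_prefix {J M : ℕ} (hM : 2 ≤ M) (hJ : 0 < J) (hPM : P ≤ M) (t : Fin J → Fin P) {m : ℕ}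
    (hm : m < J) {x : E 2} (h1 : 1 / 8 * ((m : ℝ) / J) * x 0 ≤ x 1)
    (h2 : x 1 ≤ 1 / 8 * (((m : ℝ) + 1) / J) * x 0) (h0 : 0 ≤ x 0) :
    |ell J M t x - ell J M (fun i : Fin m => t ⟨i, i.2.trans hm⟩) x|
      ≤ 1 / (32 * J) * ((M : ℝ)⁻¹) ^ m * x 0 := by
  have hJr : (0 : ℝ) < J := by exact_mod_cast hJ
  set q : ℝ := (M : ℝ)⁻¹ with hq
  have hq0 : 0 ≤ q := by rw [hq]; positivity
  have hP1 : (P : ℝ) ≤ M := by exact_mod_cast hPM
  have hsplit : ell J M t x - ell J M (fun i : Fin m => t ⟨i, i.2.trans hm⟩) x =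
      -(1 / 8 * ∑ j ∈ Finset.Ico m J,
        dig t j * q ^ (j + 1) * (x 1 - 1 / 8 * (((j : ℝ) + 1) / J) * x 0)) := by
    unfold ell
    rw [← Finset.sum_range_add_sum_Ico _ hm.le]
    have : ∑ j ∈ Finset.range m, dig t j * (M : ℝ)⁻¹ ^ (j + 1) *
        (x 1 - 1 / 8 * (((j : ℝ) + 1) / J) * x 0) =
      ∑ j ∈ Finset.range m, dig (fun i : Fin m => t ⟨i, i.2.trans hm⟩) j * (M : ℝ)⁻¹ ^ (j + 1) *
        (x 1 - 1 / 8 * (((j : ℝ) + 1) / J) * x 0) := by
      refine Finset.sum_congr rfl fun j hj => ?_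
      have hj' : j < m := Finset.mem_range.1 hj
      congr 2
      unfold dig
      rw [dif_pos hj', dif_pos (hj'.trans hm)]
    rw [this]
    ring
  rw [hsplit, abs_neg, abs_mul, abs_of_pos (by norm_num : (0 : ℝ) < 1 / 8)]
  rw [Finset.sum_Ico_eq_sum_range]
  have hb : |∑ k ∈ Finset.range (J - m), dig t (m + k) * q ^ (m + k + 1) *
      (x 1 - 1 / 8 * ((((m + k : ℕ) : ℝ) + 1) / J) * x 0)| ≤
      ∑ k ∈ Finset.range (J - m), (1 / 8 * q ^ m * x 0 / J) *
        (((M : ℝ) - 1) * ((k : ℝ) + 1) * q ^ (k + 1)) := by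
    refine (Finset.abs_sum_le_sum_abs _ _).trans (Finset.sum_le_sum fun k hk => ?_)
    have hk' : m + k < J := by have := Finset.mem_range.1 hk; omega
    rw [abs_mul, abs_mul, abs_of_nonneg (dig_nonneg _ _), abs_of_nonneg (by positivity)]
    have hd : dig t (m + k) ≤ (M : ℝ) - 1 := (dig_le t hk').trans (by linarith)
    have hx : |x 1 - 1 / 8 * ((((m + k : ℕ) : ℝ) + 1) / J) * x 0| ≤
        1 / 8 * (((k : ℝ) + 1) / J) * x 0 := by
      rw [abs_le]
      push_cast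
      constructor
      · have : 1 / 8 * (((m : ℝ) + k + 1) / J) * x 0 =
            1 / 8 * ((m : ℝ) / J) * x 0 + 1 / 8 * (((k : ℝ) + 1) / J) * x 0 := by
          field_simp; ring
        linarith
      · have e1 : 1 / 8 * (((m : ℝ) + k + 1) / J) * x 0 =
            1 / 8 * (((m : ℝ) + 1) / J) * x 0 + 1 / 8 * ((k : ℝ) / J) * x 0 := by
          field_simp; ring
        have e2 : 0 ≤ 1 / 8 * ((k : ℝ) / J) * x 0 := by positivity
        have e3 : 0 ≤ 1 / 8 * (((k : ℝ) + 1) / J) * x 0 := by positivity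
        linarith
    have hM1 : (0 : ℝ) ≤ (M : ℝ) - 1 := by
      have : (2 : ℝ) ≤ M := by exact_mod_cast hM
      linarith
    calc dig t (m + k) * q ^ (m + k + 1) * |x 1 - 1 / 8 * ((((m + k : ℕ) : ℝ) + 1) / J) * x 0|
        ≤ ((M : ℝ) - 1) * q ^ (m + k + 1) * (1 / 8 * (((k : ℝ) + 1) / J) * x 0) := by
          apply mul_le_mul _ hx (abs_nonneg _) (by positivity)
          exact mul_le_mul_of_nonneg_right hd (by positivity)
      _ = (1 / 8 * q ^ m * x 0 / J) * (((M : ℝ) - 1) * ((k : ℝ) + 1) * q ^ (k + 1)) := by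
          rw [show m + k + 1 = m + (k + 1) by ring, pow_add]; ring
  rw [← Finset.mul_sum] at hb
  have hB := geomB_le hM (J - m)
  have hc : 0 ≤ 1 / 8 * q ^ m * x 0 / J := by positivity
  calc 1 / 8 * |∑ k ∈ Finset.range (J - m), dig t (m + k) * q ^ (m + k + 1) *
      (x 1 - 1 / 8 * ((((m + k : ℕ) : ℝ) + 1) / J) * x 0)|
      ≤ 1 / 8 * ((1 / 8 * q ^ m * x 0 / J) * 2) := by
        apply mul_le_mul_of_nonneg_left _ (by norm_num)
        exact hb.trans (mul_le_mul_of_nonneg_left hB hc)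
    _ = 1 / (32 * J) * q ^ m * x 0 := by field_simp; ring

/-- separation: distinct lines are far apart in the directions where the coefficients have
one sign -/
theorem ell_sep {J M : ℕ} (hM : 2 ≤ M) (hJM : J ≤ M) (hP : ((P : ℝ) - 1) ≤ (1 - 4 / J) * ((M : ℝ) - 1))
    {t t' : Fin J → Fin P} (hne : t ≠ t') {x : E 2} (hx0 : |x 0| ≤ 1) {σ : ℝ}
    (hσ : |σ| = 1)
    (hx : ∀ j : ℕ, j < J → 1 / 8 ≤ σ * (x 1 - 1 / 8 * (((j : ℝ) + 1) / J) * x 0)) :
    1 / 64 * ((M : ℝ)⁻¹) ^ J ≤ |ell J M t x - ell J M t' x| := by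
  set q : ℝ := (M : ℝ)⁻¹ with hq
  have hq0 : 0 < q := by rw [hq]; positivity
  have hMr : (2 : ℝ) ≤ M := by exact_mod_cast hM
  have hex : ∃ j : ℕ, ∃ h : j < J, t ⟨j, h⟩ ≠ t' ⟨j, h⟩ := by
    by_contra hcon
    push Not at hcon
    exact hne (funext fun i => hcon i i.2)
  classical
  set m := Nat.find hex with hm
  obtain ⟨hmJ, hmne⟩ := Nat.find_spec hex
  have hmin : ∀ j < m, dig t j - dig t' j = 0 := by
    intro j hj
    have h := Nat.find_min hex hj
    push Not at h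
    have hjJ : j < J := hj.trans hmJ
    unfold dig
    rw [dif_pos hjJ, dif_pos hjJ, h hjJ, sub_self]
  have hJ0 : 0 < J := by omega
  have hJr : (0 : ℝ) < J := by exact_mod_cast hJ0
  -- the numbers `r j`
  set r : ℕ → ℝ := fun j => σ * (x 1 - 1 / 8 * (((j : ℝ) + 1) / J) * x 0) with hr
  have hdm : 1 ≤ |dig t m - dig t' m| := by
    unfold dig
    rw [dif_pos hmJ, dif_pos hmJ]
    have h1 : ((t ⟨m, hmJ⟩ : ℕ) : ℤ) ≠ ((t' ⟨m, hmJ⟩ : ℕ) : ℤ) := by
      intro h
      apply hmne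
      apply Fin.ext
      exact_mod_cast h
    have h2 : (1 : ℤ) ≤ |((t ⟨m, hmJ⟩ : ℕ) : ℤ) - ((t' ⟨m, hmJ⟩ : ℕ) : ℤ)| :=
      Int.one_le_abs (sub_ne_zero.2 h1)
    exact_mod_cast h2
  have hdiff : 8 * (ell J M t' x - ell J M t x) * σ =
      ∑ j ∈ Finset.range J, (dig t j - dig t' j) * q ^ (j + 1) * r j := by
    unfold ell
    have e1 : 8 * (x 2 - 1 / 8 * ∑ j ∈ Finset.range J, dig t' j * (M : ℝ)⁻¹ ^ (j + 1) *
        (x 1 - 1 / 8 * (((j : ℝ) + 1) / J) * x 0) -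
        (x 2 - 1 / 8 * ∑ j ∈ Finset.range J, dig t j * (M : ℝ)⁻¹ ^ (j + 1) *
        (x 1 - 1 / 8 * (((j : ℝ) + 1) / J) * x 0))) * σ =
        σ * (∑ j ∈ Finset.range J, dig t j * (M : ℝ)⁻¹ ^ (j + 1) *
        (x 1 - 1 / 8 * (((j : ℝ) + 1) / J) * x 0) -
        ∑ j ∈ Finset.range J, dig t' j * (M : ℝ)⁻¹ ^ (j + 1) *
        (x 1 - 1 / 8 * (((j : ℝ) + 1) / J) * x 0)) := by ring
    rw [e1, ← Finset.sum_sub_distrib, Finset.mul_sum]
    refine Finset.sum_congr rfl fun j _ => ?_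
    rw [hr]
    ring
  have hsum : ∑ j ∈ Finset.range J, (dig t j - dig t' j) * q ^ (j + 1) * r j =
      (dig t m - dig t' m) * q ^ (m + 1) * r m +
      ∑ j ∈ Finset.Ico (m + 1) J, (dig t j - dig t' j) * q ^ (j + 1) * r j := by
    rw [← Finset.sum_range_add_sum_Ico _ (Nat.succ_le_of_lt hmJ), Finset.sum_range_succ]
    have : ∑ j ∈ Finset.range m, (dig t j - dig t' j) * q ^ (j + 1) * r j = 0 := by
      refine Finset.sum_eq_zero fun j hj => ?_
      rw [hmin j (Finset.mem_range.1 hj)]; ring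
    rw [this, zero_add]
  have hrm : 1 / 8 ≤ r m := hx m hmJ
  have htail : |∑ j ∈ Finset.Ico (m + 1) J, (dig t j - dig t' j) * q ^ (j + 1) * r j| ≤
      q ^ (m + 1) * ((1 - 4 / J) * (r m + 1 / (4 * J))) := by
    rw [Finset.sum_Ico_eq_sum_range]
    refine (Finset.abs_sum_le_sum_abs _ _).trans ?_
    have hκ : 0 ≤ ((P : ℝ) - 1) := by
      have : 0 < P := by
        have := (t ⟨0, hJ0⟩).2
        omega
      have : (1 : ℝ) ≤ P := by exact_mod_cast this
      linarith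
    have hterm : ∀ k ∈ Finset.range (J - (m + 1)),
        |(dig t (m + 1 + k) - dig t' (m + 1 + k)) * q ^ (m + 1 + k + 1) * r (m + 1 + k)| ≤
        q ^ (m + 1) * (((P : ℝ) - 1) * q ^ (k + 1) * r m +
          1 / (8 * J) * (((P : ℝ) - 1) * ((k : ℝ) + 1) * q ^ (k + 1))) := by
      intro k hk
      have hk' : m + 1 + k < J := by have := Finset.mem_range.1 hk; omega
      have hrk : 1 / 8 ≤ r (m + 1 + k) := hx _ hk'
      rw [abs_mul, abs_mul, abs_of_nonneg (by linarith : 0 ≤ r (m + 1 + k)),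
        abs_of_nonneg (by positivity : 0 ≤ q ^ (m + 1 + k + 1))]
      have hd : |dig t (m + 1 + k) - dig t' (m + 1 + k)| ≤ (P : ℝ) - 1 := by
        have a1 := dig_le t hk'
        have a2 := dig_le t' hk'
        have a3 := dig_nonneg t (m + 1 + k)
        have a4 := dig_nonneg t' (m + 1 + k)
        rw [abs_le]
        constructor <;> linarith
      have hrr : r (m + 1 + k) ≤ r m + 1 / (8 * J) * ((k : ℝ) + 1) := by
        have e : r (m + 1 + k) = r m - σ * x 0 * (1 / (8 * J) * ((k : ℝ) + 1)) := by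
          rw [hr]
          simp only
          push_cast
          field_simp
          ring
        rw [e]
        have h1 : |σ * x 0| ≤ 1 := by rw [abs_mul, hσ, one_mul]; exact hx0
        have h2 : -(σ * x 0) ≤ 1 := by have := (abs_le.1 h1).1; linarith
        have h3 : 0 ≤ 1 / (8 * (J : ℝ)) * ((k : ℝ) + 1) := by positivity
        nlinarith [mul_le_mul_of_nonneg_right h2 h3]
      calc |dig t (m + 1 + k) - dig t' (m + 1 + k)| * q ^ (m + 1 + k + 1) * r (m + 1 + k)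
          ≤ ((P : ℝ) - 1) * q ^ (m + 1 + k + 1) * (r m + 1 / (8 * J) * ((k : ℝ) + 1)) := by
            apply mul_le_mul _ hrr (by linarith) (by positivity)
            exact mul_le_mul_of_nonneg_right hd (by positivity)
        _ = _ := by
            rw [show m + 1 + k + 1 = (m + 1) + (k + 1) by ring, pow_add]; ring
    refine (Finset.sum_le_sum hterm).trans ?_
    rw [← Finset.mul_sum]
    have eS : ∑ k ∈ Finset.range (J - (m + 1)), (((P : ℝ) - 1) * q ^ (k + 1) * r m +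
          1 / (8 * J) * (((P : ℝ) - 1) * ((k : ℝ) + 1) * q ^ (k + 1))) =
        (∑ k ∈ Finset.range (J - (m + 1)), ((P : ℝ) - 1) * q ^ (k + 1)) * r m +
        1 / (8 * J) * ∑ k ∈ Finset.range (J - (m + 1)), ((P : ℝ) - 1) * ((k : ℝ) + 1) * q ^ (k + 1) := by
      rw [Finset.sum_add_distrib, Finset.sum_mul, Finset.mul_sum]
    rw [eS]
    apply mul_le_mul_of_nonneg_left _ (by positivity)
    have hM1 : (0 : ℝ) < (M : ℝ) - 1 := by linarith
    have hA := geomA_le hM (J - (m + 1))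
    have hB := geomB_le hM (J - (m + 1))
    have eA : ∑ i ∈ Finset.range (J - (m + 1)), ((P : ℝ) - 1) * q ^ (i + 1) =
        (((P : ℝ) - 1) / ((M : ℝ) - 1)) *
          ∑ i ∈ Finset.range (J - (m + 1)), ((M : ℝ) - 1) * q ^ (i + 1) := by
      rw [Finset.mul_sum]
      refine Finset.sum_congr rfl fun i _ => ?_
      field_simp
    have eB : ∑ i ∈ Finset.range (J - (m + 1)), ((P : ℝ) - 1) * ((i : ℝ) + 1) * q ^ (i + 1) =
        (((P : ℝ) - 1) / ((M : ℝ) - 1)) *
          ∑ i ∈ Finset.range (J - (m + 1)), ((M : ℝ) - 1) * ((i : ℝ) + 1) * q ^ (i + 1) := by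
      rw [Finset.mul_sum]
      refine Finset.sum_congr rfl fun i _ => ?_
      field_simp
    rw [eA, eB]
    set κ := ((P : ℝ) - 1) / ((M : ℝ) - 1) with hκd
    have hκ0 : 0 ≤ κ := by rw [hκd]; positivity
    have hκ1 : κ ≤ 1 - 4 / J := by
      rw [hκd, div_le_iff₀ hM1]; exact hP
    have b1 : κ * (∑ i ∈ Finset.range (J - (m + 1)), ((M : ℝ) - 1) * q ^ (i + 1)) * r m ≤
        κ * 1 * r m := by
      apply mul_le_mul_of_nonneg_right _ (by linarith)
      exact mul_le_mul_of_nonneg_left hA hκ0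
    have b2 : 1 / (8 * (J : ℝ)) * (κ * ∑ i ∈ Finset.range (J - (m + 1)),
        ((M : ℝ) - 1) * ((i : ℝ) + 1) * q ^ (i + 1)) ≤ 1 / (8 * (J : ℝ)) * (κ * 2) := by
      apply mul_le_mul_of_nonneg_left _ (by positivity)
      exact mul_le_mul_of_nonneg_left hB hκ0
    have b3 : κ * 1 * r m + 1 / (8 * (J : ℝ)) * (κ * 2) = κ * (r m + 1 / (4 * J)) := by
      field_simp; ring
    have b4 : κ * (r m + 1 / (4 * J)) ≤ (1 - 4 / J) * (r m + 1 / (4 * J)) := by
      apply mul_le_mul_of_nonneg_right hκ1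
      have : (0 : ℝ) < 1 / (4 * J) := by positivity
      linarith
    linarith
  have hmain : 1 / 8 * q ^ J ≤ |∑ j ∈ Finset.range J, (dig t j - dig t' j) * q ^ (j + 1) * r j| := by
    rw [hsum]
    set D := dig t m - dig t' m with hD
    set T := ∑ j ∈ Finset.Ico (m + 1) J, (dig t j - dig t' j) * q ^ (j + 1) * r j with hT
    have h1 : q ^ (m + 1) * r m ≤ |D * q ^ (m + 1) * r m| := by
      rw [abs_mul, abs_mul, abs_of_nonneg (by linarith : 0 ≤ r m),
        abs_of_nonneg (by positivity : 0 ≤ q ^ (m + 1))]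
      have h2 : 0 ≤ q ^ (m + 1) * r m := by
        have : 0 ≤ r m := by linarith
        positivity
      nlinarith [mul_le_mul_of_nonneg_right hdm h2]
    have h3 : |D * q ^ (m + 1) * r m| - |T| ≤ |D * q ^ (m + 1) * r m + T| := by
      have := abs_sub_abs_le_abs_sub (D * q ^ (m + 1) * r m) (-T)
      rwa [abs_neg, sub_neg_eq_add] at this
    rcases Nat.lt_or_ge (m + 1) J with hlt | hge
    · have h4 : q ^ (m + 1) * (1 / (4 * J)) ≤ q ^ (m + 1) * r m - |T| := by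
        have h5 : q ^ (m + 1) * (1 / (4 * J)) ≤
            q ^ (m + 1) * r m - q ^ (m + 1) * ((1 - 4 / J) * (r m + 1 / (4 * J))) := by
          rw [← mul_sub]
          apply mul_le_mul_of_nonneg_left _ (by positivity)
          have e : r m - (1 - 4 / J) * (r m + 1 / (4 * J)) =
              4 / J * r m - 1 / (4 * J) + 1 / (J : ℝ) ^ 2 := by
            field_simp; ring
          rw [e]
          have h6 : 4 / (J : ℝ) * (1 / 8) ≤ 4 / J * r m :=
            mul_le_mul_of_nonneg_left hrm (by positivity)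
          have h7 : 4 / (J : ℝ) * (1 / 8) = 1 / (4 * J) + 1 / (4 * J) := by field_simp; ring
          have h8 : 0 ≤ 1 / (J : ℝ) ^ 2 := by positivity
          linarith
        linarith
      have h9 : 1 / 8 * q ^ J ≤ q ^ (m + 1) * (1 / (4 * J)) := by
        have h10 : q ^ J ≤ q ^ (m + 2) := by
          apply pow_le_pow_of_le_one hq0.le _ (by omega)
          rw [hq]; exact inv_le_one_of_one_le₀ (by linarith)
        have h11 : q ^ (m + 2) = q ^ (m + 1) * q := pow_succ _ _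
        have h12 : 1 / 8 * q ≤ 1 / (4 * J) := by
          have hJM' : (J : ℝ) ≤ M := by exact_mod_cast hJM
          rw [hq, ← one_div]
          rw [one_div_mul_one_div, div_le_div_iff₀ (by positivity) (by positivity)]
          linarith
        have h13 : 0 ≤ q ^ (m + 1) := by positivity
        nlinarith [mul_le_mul_of_nonneg_left h12 h13]
      linarith
    · have hmJ' : m + 1 = J := by omega
      have hT0 : T = 0 := by
        rw [hT, hmJ', Finset.Ico_self, Finset.sum_empty]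
      rw [hT0, add_zero, ]
      have : 1 / 8 * q ^ J ≤ q ^ (m + 1) * r m := by
        rw [hmJ']
        have : 0 ≤ q ^ J := by positivity
        nlinarith
      linarith
  rw [← hdiff, abs_mul, hσ, mul_one, abs_mul, abs_of_pos (by norm_num : (0 : ℝ) < 8),
    abs_sub_comm] at hmain
  linarith

end Pool.Agent.Helper855K
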