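import Pool.Agent.Helper855K.Defs

/-!
# MP_af75b4_an: the Riemannian volume of the sphere
-/

set_option autoImplicit false

open MeasureTheory Metric Set Filter Topology InnerProductGeometry
open scoped Pointwise

namespace Pool.Agent.Helper855K

theorem measurable_val (m : ℕ) :
    Measurable (Subtype.val : sphere (0 : E m) 1 → E m) := measurable_subtype_coe

instance instFinite (m : ℕ) : IsFiniteMeasure (dV m) := by
  unfold dV
  infer_instance

theorem dV_ae (m : ℕ) : ∀ᵐ x ∂(dV m), ‖x‖ = 1 := by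
  unfold dV
  rw [ae_map_iff (measurable_val m).aemeasurable]
  · refine Eventually.of_forall fun x => ?_
    simp
  · exact measurableSet_eq_fun measurable_norm measurable_const

theorem dV_apply {m : ℕ} {s : Set (E m)} (hs : MeasurableSet s) :
    dV m s = ((m + 1 : ℕ) : ENNReal) * volume (Ioo (0 : ℝ) 1 • (s ∩ sphere (0 : E m) 1)) := by
  unfold dV
  rw [Measure.map_apply (measurable_val m) hs, Measure.toSphere_apply' _ (measurable_val m hs)]
  congr 2
  · simp
  · congr 1
    ext x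
    simp [and_comm]

theorem dV_cone {m : ℕ} {K : Set (E m)} (hK : MeasurableSet K)
    (hh : ∀ x : E m, ∀ r : ℝ, 0 < r → (r • x ∈ K ↔ x ∈ K)) :
    dV m K = ((m + 1 : ℕ) : ENNReal) * volume (K ∩ (ball (0 : E m) 1 \ {0})) := by
  rw [dV_apply hK]
  congr 2
  ext x
  simp only [Set.mem_smul, mem_inter_iff, mem_sphere_zero_iff_norm, mem_diff, mem_ball_zero_iff,
    mem_singleton_iff]
  constructor
  · rintro ⟨r, ⟨h0, h1⟩, y, ⟨hy, hn⟩, rfl⟩
    refine ⟨(hh y r h0).2 hy, ?_, ?_⟩
    · rw [norm_smul, hn, Real.norm_eq_abs, abs_of_pos h0]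
      simpa using h1
    · intro h
      have : ‖r • y‖ = 0 := by rw [h]; simp
      rw [norm_smul, hn, Real.norm_eq_abs, abs_of_pos h0] at this
      linarith
  · rintro ⟨hx, h1, h0⟩
    have hn : 0 < ‖x‖ := norm_pos_iff.2 h0
    refine ⟨‖x‖, ⟨hn, h1⟩, ‖x‖⁻¹ • x, ⟨?_, ?_⟩, ?_⟩
    · exact (hh x _ (by positivity)).2 hx
    · rw [norm_smul, norm_inv, norm_norm]
      field_simp
    · rw [smul_smul]
      field_simp
      simp

theorem dV_isometry {m : ℕ} (g : E m ≃ₗᵢ[ℝ] E m) : MeasurePreserving g (dV m) (dV m) := by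
  refine ⟨g.continuous.measurable, ?_⟩
  ext s hs
  rw [Measure.map_apply g.continuous.measurable hs, dV_apply hs,
    dV_apply (g.continuous.measurable hs)]
  have h : Ioo (0 : ℝ) 1 • (g ⁻¹' s ∩ sphere (0 : E m) 1) =
      g ⁻¹' (Ioo (0 : ℝ) 1 • (s ∩ sphere (0 : E m) 1)) := by
    ext x
    simp only [Set.mem_smul, mem_inter_iff, mem_sphere_zero_iff_norm, mem_preimage]
    constructor
    · rintro ⟨r, hr, y, ⟨hy, hn⟩, rfl⟩
      exact ⟨r, hr, g y, ⟨hy, by simpa using hn⟩, by simp⟩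
    · rintro ⟨r, hr, y, ⟨hy, hn⟩, hx⟩
      refine ⟨r, hr, g.symm y, ⟨by simpa using hy, by simpa using hn⟩, ?_⟩
      apply g.injective
      rw [← hx]
      simp
  rw [h]
  congr 1
  exact (g.measurePreserving).measure_preimage_equiv (f := g.toMeasurableEquiv) _

theorem dV_preimage {m : ℕ} (g : E m ≃ₗᵢ[ℝ] E m) (s : Set (E m)) :
    dV m (g ⁻¹' s) = dV m s :=
  (dV_isometry g).measure_preimage_equiv (f := g.toMeasurableEquiv) s

end Pool.Agent.Helper855K
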