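import Pool.Agent.Helper855K.Meas

/-!
# MP_af75b4_an: the complement of two antipodal caps satisfies the TGCC
-/

set_option autoImplicit false

open MeasureTheory Metric Set Filter Topology InnerProductGeometry

namespace Pool.Agent.Helper855K

/-- the complement of two antipodal caps of the sphere -/
def band (m : ℕ) : Set (E m) := {x | ‖x‖ = 1 ∧ |x 0| ≤ 9 / 10}

theorem band_measurable (m : ℕ) : MeasurableSet (band m) := by
  have h1 : MeasurableSet {x : E m | ‖x‖ = 1} :=
    measurableSet_eq_fun measurable_norm measurable_const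
  have h2 : MeasurableSet {x : E m | |x 0| ≤ 9 / 10} := by
    apply measurableSet_le _ measurable_const
    have : Continuous fun x : E m => |x 0| := by fun_prop
    exact this.measurable
  exact h1.inter h2

/-- a rotation by a right angle in the plane of `u`, `v` -/
theorem exists_rot {m : ℕ} {u v : E m} (hu : ‖u‖ = 1) (hv : ‖v‖ = 1) (h : inner ℝ u v = 0) :
    ∃ g : E m ≃ₗᵢ[ℝ] E m, g u = v ∧ g v = -u := by
  refine ⟨((ℝ ∙ v)ᗮ.reflection).trans ((ℝ ∙ (u - v))ᗮ.reflection), ?_, ?_⟩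
  · have h1 : (ℝ ∙ v)ᗮ.reflection u = u := by
      apply Submodule.reflection_mem_subspace_eq_self
      rw [Submodule.mem_orthogonal_singleton_iff_inner_left]
      exact h
    rw [LinearIsometryEquiv.trans_apply, h1]
    exact Submodule.reflection_sub (by rw [hu, hv])
  · have h1 : (ℝ ∙ v)ᗮ.reflection v = -v :=
      Submodule.reflection_orthogonalComplement_singleton_eq_neg v
    have h2 : (ℝ ∙ (u - v))ᗮ.reflection v = u := by
      have h3 : (ℝ ∙ (u - v))ᗮ.reflection u = v := Submodule.reflection_sub (by rw [hu, hv])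
      have h4 := congrArg ((ℝ ∙ (u - v))ᗮ.reflection) h3
      rw [Submodule.reflection_reflection] at h4
      exact h4.symm
    rw [LinearIsometryEquiv.trans_apply, h1, map_neg, h2]

theorem angle_map' {m : ℕ} (g : E m ≃ₗᵢ[ℝ] E m) (x y : E m) : angle (g x) (g y) = angle x y := by
  unfold angle
  rw [g.inner_map_map, g.norm_map, g.norm_map]

theorem tube_map {m : ℕ} {u v : E m} {g : E m ≃ₗᵢ[ℝ] E m} (hgu : g u = v) (hgv : g v = -u)
    {R : ℝ} {x : E m} (hx : x ∈ tube u v R) : g x ∈ tube u v R := by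
  obtain ⟨h1, y, ⟨t, ht⟩, h2⟩ := hx
  refine ⟨by rw [g.norm_map, h1], g y, ⟨t + Real.pi / 2, ?_⟩, ?_⟩
  · rw [ht, map_add, map_smul, map_smul, hgu, hgv, Real.cos_add_pi_div_two,
      Real.sin_add_pi_div_two]
    rw [smul_neg, neg_smul, add_comm]
  · rwa [angle_map']

theorem norm_sub_le_angle {m : ℕ} {x y : E m} (hx : ‖x‖ = 1) (hy : ‖y‖ = 1) :
    ‖x - y‖ ≤ angle x y := by
  have h1 : ‖x - y‖ ^ 2 ≤ (angle x y) ^ 2 := by
    rw [norm_sub_sq_real, hx, hy]
    have h2 : inner ℝ x y = Real.cos (angle x y) := by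
      rw [cos_angle, hx, hy]; simp
    rw [h2]
    have := Real.one_sub_sq_div_two_le_cos (x := angle x y)
    nlinarith
  exact abs_le_of_sq_le_sq' h1 (angle_nonneg x y) |>.2

theorem coord_sq {m : ℕ} {u v : E m} (hu : ‖u‖ = 1) (hv : ‖v‖ = 1) (h : inner ℝ u v = 0)
    (i : Fin (m + 1)) : (u i) ^ 2 + (v i) ^ 2 ≤ 1 := by
  have e1 : inner ℝ u (EuclideanSpace.single i (1 : ℝ)) = u i := by
    simp [EuclideanSpace.inner_single_right]
  have e2 : inner ℝ v (EuclideanSpace.single i (1 : ℝ)) = v i := by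
    simp [EuclideanSpace.inner_single_right]
  set s : E m := EuclideanSpace.single i (1 : ℝ) with hs
  have hsn : ‖s‖ = 1 := by rw [hs]; simp
  have h3 : 0 ≤ ‖s - ((u i) • u + (v i) • v)‖ ^ 2 := by positivity
  have h4 : ‖(u i) • u + (v i) • v‖ ^ 2 = (u i) ^ 2 + (v i) ^ 2 := by
    rw [norm_add_sq_real, norm_smul, norm_smul, inner_smul_left, inner_smul_right, h, hu, hv]
    simp
  have h5 : inner ℝ s ((u i) • u + (v i) • v) = (u i) ^ 2 + (v i) ^ 2 := by
    rw [inner_add_right, inner_smul_right, inner_smul_right, real_inner_comm u s,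
      real_inner_comm v s, e1, e2]
    ring
  rw [norm_sub_sq_real, hsn, h4, h5] at h3
  linarith

theorem tgcc_band (m : ℕ) : TGCC m (fun _ => band m) := by
  refine ⟨1 / 10, by norm_num, 1 / 2, by norm_num, ?_⟩
  intro u v hu hv huv lam hlam
  obtain ⟨g, hgu, hgv⟩ := exists_rot hu hv huv
  set R : ℝ := 1 / 10 * lam ^ (-(1 / 2) : ℝ) with hR
  have hR1 : R ≤ 1 / 10 := by
    have : lam ^ (-(1 / 2) : ℝ) ≤ 1 := Real.rpow_le_one_of_one_le_of_nonpos hlam (by norm_num)
    rw [hR]; linarith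
  have hcov : tube u v R ⊆ (band m ∩ tube u v R) ∪ g ⁻¹' (band m ∩ tube u v R) := by
    intro x hx
    have hgx := tube_map hgu hgv hx
    obtain ⟨h1, y, ⟨t, ht⟩, h2⟩ := hx
    have hyn : ‖y‖ = 1 := by
      have : ‖y‖ ^ 2 = 1 := by
        rw [ht, norm_add_sq_real, norm_smul, norm_smul, inner_smul_left, inner_smul_right, huv,
          hu, hv]
        simp
      nlinarith [norm_nonneg y]
    have hy0 : y 0 = Real.cos t * u 0 + Real.sin t * v 0 := by rw [ht]; simp
    have hg0 : (g y) 0 = Real.cos t * v 0 - Real.sin t * u 0 := by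
      rw [ht, map_add, map_smul, map_smul, hgu, hgv]; simp; ring
    have hsum : (y 0) ^ 2 + ((g y) 0) ^ 2 ≤ 1 := by
      have := coord_sq hu hv huv 0
      have hcs := Real.sin_sq_add_cos_sq t
      have : (y 0) ^ 2 + ((g y) 0) ^ 2 = (u 0) ^ 2 + (v 0) ^ 2 := by
        rw [hy0, hg0]
        linear_combination ((u 0) ^ 2 + (v 0) ^ 2) * hcs
      linarith
    have hd1 : |x 0 - y 0| ≤ 1 / 10 := by
      have h3 : ‖x - y‖ ≤ 1 / 10 := (norm_sub_le_angle h1 hyn).trans (h2.le.trans hR1)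
      have h4 : ‖(x - y) 0‖ ≤ ‖x - y‖ := PiLp.norm_apply_le (x - y) 0
      simp only [PiLp.sub_apply, Real.norm_eq_abs] at h4
      linarith
    have hd2 : |(g x) 0 - (g y) 0| ≤ 1 / 10 := by
      have h3 : ‖x - y‖ ≤ 1 / 10 := (norm_sub_le_angle h1 hyn).trans (h2.le.trans hR1)
      have h4 : ‖(g (x - y)) 0‖ ≤ ‖g (x - y)‖ := PiLp.norm_apply_le (g (x - y)) 0
      rw [g.norm_map, map_sub] at h4
      simp only [PiLp.sub_apply, Real.norm_eq_abs] at h4
      linarith
    by_cases hc : |y 0| ≤ 4 / 5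
    · left
      refine ⟨⟨h1, ?_⟩, ⟨h1, y, ⟨t, ht⟩, h2⟩⟩
      have := abs_sub_abs_le_abs_sub (x 0) (y 0)
      linarith
    · right
      refine ⟨⟨by rw [g.norm_map, h1], ?_⟩, hgx⟩
      have h5 : |(g y) 0| ≤ 4 / 5 := by
        by_contra hcon
        push Not at hc hcon
        have e1 : (16 : ℝ) / 25 < (y 0) ^ 2 := by
          rw [← sq_abs (y 0)]; nlinarith
        have e2 : (16 : ℝ) / 25 < ((g y) 0) ^ 2 := by
          rw [← sq_abs ((g y) 0)]; nlinarith
        linarith
      have := abs_sub_abs_le_abs_sub ((g x) 0) ((g y) 0)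
      linarith
  have h1 : (dV m) (tube u v R) ≤ (dV m) (band m ∩ tube u v R) + (dV m) (band m ∩ tube u v R) := by
    refine (measure_mono hcov).trans ((measure_union_le _ _).trans ?_)
    rw [dV_preimage]
  have h2 : (dV m).real (tube u v R) ≤
      (dV m).real (band m ∩ tube u v R) + (dV m).real (band m ∩ tube u v R) := by
    unfold Measure.real
    rw [← ENNReal.toReal_add (measure_ne_top _ _) (measure_ne_top _ _)]
    exact ENNReal.toReal_mono (by finiteness) h1
  linarith

end Pool.Agent.Helper855K
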