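import Pool.Agent.Helper855K.Vol2
import Pool.Agent.Helper855K.Eig
import Pool.Agent.Helper855K.Tgcc

/-!
# MP_af75b4_an: the sum of the beams is bounded away from the two caps
-/

set_option autoImplicit false

open MeasureTheory Metric Set Filter Topology

namespace Pool.Agent.Helper855K

variable {P n : ℕ}

theorem norm_beam (B : OrthonormalBasis (Fin 3) ℝ (E 2)) (K : ℕ) {x : E 2} (hx : ‖x‖ = 1) :
    ‖beam B K x‖ = (1 - (inner ℝ (B 0) x) ^ 2) ^ (K + 1) := by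
  have h := B.sum_sq_norm_inner_right x
  rw [Fin.sum_univ_three, hx] at h
  simp only [Real.norm_eq_abs, sq_abs] at h
  have h1 : ‖Lf B x‖ ^ 2 = 1 - (inner ℝ (B 0) x) ^ 2 := by
    unfold Lf
    rw [mul_comm Complex.I, Complex.sq_norm, Complex.normSq_add_mul_I]
    linarith
  unfold beam
  rw [norm_pow, show 2 * K + 2 = 2 * (K + 1) by ring, pow_mul, h1]

/-- the normal vector of the plane of the great circle -/
noncomputable def wv (J M : ℕ) (t : Fin n → Fin P) : E 2 :=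
  WithLp.toLp 2 ![be J M t, -al M t, 1]

theorem wv_inner (J M : ℕ) (t : Fin n → Fin P) (x : E 2) :
    inner ℝ (wv J M t) x = ell J M t x := by
  rw [ell_eq, PiLp.inner_apply, Fin.sum_univ_three]
  simp [wv]
  ring

theorem wv_norm_sq (J M : ℕ) (t : Fin n → Fin P) :
    ‖wv J M t‖ ^ 2 = be J M t ^ 2 + al M t ^ 2 + 1 := by
  rw [EuclideanSpace.norm_sq_eq, Fin.sum_univ_three]
  simp [wv]

theorem wv_norm_ge (J M : ℕ) (t : Fin n → Fin P) : 1 ≤ ‖wv J M t‖ := by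
  have := wv_norm_sq J M t
  nlinarith [norm_nonneg (wv J M t), sq_nonneg (be J M t), sq_nonneg (al M t)]

theorem wv_norm_le {J M : ℕ} (hM : 2 ≤ M) (hPM : P ≤ M) (hn : n ≤ J) (t : Fin n → Fin P) :
    ‖wv J M t‖ ^ 2 ≤ 2 := by
  rw [wv_norm_sq]
  have a1 := al_nonneg M t
  have a2 := al_le hM hPM t
  have a3 := be_nonneg J M t
  have a4 := be_le hM hPM hn t
  nlinarith

theorem exists_basis (J M : ℕ) (t : Fin n → Fin P) :
    ∃ B : OrthonormalBasis (Fin 3) ℝ (E 2), B 0 = ‖wv J M t‖⁻¹ • wv J M t := by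
  have h1 := wv_norm_ge J M t
  have hcard : Module.finrank ℝ (E 2) = Fintype.card (Fin 3) := by simp
  have hv : Orthonormal ℝ (({0} : Set (Fin 3)).restrict
      (fun _ : Fin 3 => ‖wv J M t‖⁻¹ • wv J M t)) := by
    constructor
    · intro i
      change ‖‖wv J M t‖⁻¹ • wv J M t‖ = 1
      rw [norm_smul, norm_inv, norm_norm, inv_mul_cancel₀ (by linarith)]
    · rintro ⟨i, hi⟩ ⟨j, hj⟩ hij
      exfalso
      apply hij
      rw [mem_singleton_iff] at hi hj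
      exact Subtype.ext (hi.trans hj.symm)
  obtain ⟨B, hB⟩ := hv.exists_orthonormalBasis_extension_of_card_eq hcard
  exact ⟨B, hB 0 rfl⟩

/-- the orthonormal basis whose first vector is the unit normal of the great circle `t` -/
noncomputable def Bt (J M : ℕ) (t : Fin n → Fin P) : OrthonormalBasis (Fin 3) ℝ (E 2) :=
  (exists_basis J M t).choose

theorem Bt_inner (J M : ℕ) (t : Fin n → Fin P) (x : E 2) :
    inner ℝ (Bt J M t 0) x = ‖wv J M t‖⁻¹ * ell J M t x := by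
  rw [show Bt J M t 0 = ‖wv J M t‖⁻¹ • wv J M t from (exists_basis J M t).choose_spec,
    inner_smul_left, wv_inner]
  simp

theorem Bt_inner_sq_le (J M : ℕ) (t : Fin n → Fin P) (x : E 2) :
    (inner ℝ (Bt J M t 0) x) ^ 2 ≤ (ell J M t x) ^ 2 := by
  rw [Bt_inner, mul_pow]
  have h1 := wv_norm_ge J M t
  have h2 : (‖wv J M t‖⁻¹) ^ 2 ≤ 1 :=
    pow_le_one₀ (by positivity) (inv_le_one_of_one_le₀ h1)
  nlinarith [sq_nonneg (ell J M t x)]

theorem Bt_inner_sq_ge {J M : ℕ} (hM : 2 ≤ M) (hPM : P ≤ M) (hn : n ≤ J) (t : Fin n → Fin P)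
    (x : E 2) : (ell J M t x) ^ 2 / 2 ≤ (inner ℝ (Bt J M t 0) x) ^ 2 := by
  rw [Bt_inner, mul_pow]
  have h1 := wv_norm_ge J M t
  have h2 := wv_norm_le hM hPM hn t
  have h3 : 1 / 2 ≤ (‖wv J M t‖⁻¹) ^ 2 := by
    rw [inv_pow, ← one_div]
    apply one_div_le_one_div_of_le (by positivity) h2
  nlinarith [mul_le_mul_of_nonneg_right h3 (sq_nonneg (ell J M t x))]

/-- lower bound of the beam near its great circle -/
theorem beam_lower {J M K : ℕ} (t : Fin n → Fin P) {x : E 2} (hx : ‖x‖ = 1)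
    (h : ((K : ℝ) + 1) * (ell J M t x) ^ 2 ≤ 1 / 2) : 1 / 2 ≤ ‖beam (Bt J M t) K x‖ := by
  rw [norm_beam _ _ hx]
  set a := (inner ℝ (Bt J M t 0) x) ^ 2 with ha
  have ha1 : a ≤ (ell J M t x) ^ 2 := Bt_inner_sq_le J M t x
  have ha0 : 0 ≤ a := sq_nonneg _
  have hK0 : (0 : ℝ) ≤ K := by positivity
  have hK : (1 : ℝ) ≤ (K : ℝ) + 1 := by linarith
  have ha2 : a ≤ 1 / 2 := by nlinarith
  have h1 : 1 + ((K + 1 : ℕ) : ℝ) * (-a) ≤ (1 + -a) ^ (K + 1) :=
    one_add_mul_le_pow (by linarith) (K + 1)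
  push_cast at h1
  have h2 : ((K : ℝ) + 1) * a ≤ 1 / 2 :=
    (mul_le_mul_of_nonneg_left ha1 (by positivity)).trans h
  calc (1 : ℝ) / 2 ≤ 1 + ((K : ℝ) + 1) * (-a) := by linarith
    _ ≤ (1 + -a) ^ (K + 1) := h1
    _ = (1 - a) ^ (K + 1) := by rw [sub_eq_add_neg]

/-- upper bound of the beam -/
theorem beam_upper {J M K : ℕ} (hM : 2 ≤ M) (hPM : P ≤ M) (hn : n ≤ J) (t : Fin n → Fin P)
    {x : E 2} (hx : ‖x‖ = 1) :
    ‖beam (Bt J M t) K x‖ ≤ 1 / (1 + ((K : ℝ) + 1) * (ell J M t x) ^ 2 / 2) := by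
  rw [norm_beam _ _ hx]
  set a := (inner ℝ (Bt J M t 0) x) ^ 2 with ha
  have ha1 : (ell J M t x) ^ 2 / 2 ≤ a := Bt_inner_sq_ge hM hPM hn t x
  have ha0 : 0 ≤ a := sq_nonneg _
  have ha2 : a ≤ 1 := by
    have h := abs_real_inner_le_norm (Bt J M t 0) x
    rw [(Bt J M t).norm_eq_one, hx, mul_one] at h
    rw [ha, ← sq_abs]
    nlinarith [abs_nonneg (inner ℝ (Bt J M t 0) x)]
  have h1 : 1 + ((K + 1 : ℕ) : ℝ) * a ≤ (1 + a) ^ (K + 1) :=
    one_add_mul_le_pow (by linarith) (K + 1)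
  push_cast at h1
  have h2 : (1 - a) ^ (K + 1) * (1 + a) ^ (K + 1) ≤ 1 := by
    rw [← mul_pow]
    apply pow_le_one₀
    · nlinarith
    · nlinarith
  have h3 : 0 ≤ (1 - a) ^ (K + 1) := pow_nonneg (by linarith) _
  have h4 : 0 < 1 + ((K : ℝ) + 1) * (ell J M t x) ^ 2 / 2 := by positivity
  rw [le_div_iff₀ h4]
  have h5 : 1 + ((K : ℝ) + 1) * (ell J M t x) ^ 2 / 2 ≤ 1 + ((K : ℝ) + 1) * a := by
    have : ((K : ℝ) + 1) * ((ell J M t x) ^ 2 / 2) ≤ ((K : ℝ) + 1) * a :=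
      mul_le_mul_of_nonneg_left ha1 (by positivity)
    linarith
  calc (1 - a) ^ (K + 1) * (1 + ((K : ℝ) + 1) * (ell J M t x) ^ 2 / 2)
      ≤ (1 - a) ^ (K + 1) * (1 + a) ^ (K + 1) :=
        mul_le_mul_of_nonneg_left (h5.trans h1) h3
    _ ≤ 1 := h2

theorem summable_S : Summable fun k : ℤ => 1 / (1 + (k : ℝ) ^ 2) := by
  have h1 : Summable fun k : ℤ => 1 / (k : ℝ) ^ 2 := Real.summable_one_div_int_pow.2 (by norm_num)
  refine Summable.of_norm_bounded_eventually h1 ?_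
  have h2 : ∀ᶠ k : ℤ in cofinite, k ≠ 0 := by
    rw [eventually_cofinite]
    simp
  filter_upwards [h2] with k hk
  have hk2 : (0 : ℝ) < (k : ℝ) ^ 2 := by
    have : (k : ℝ) ≠ 0 := by exact_mod_cast hk
    positivity
  rw [Real.norm_eq_abs, abs_of_nonneg (by positivity)]
  apply one_div_le_one_div_of_le hk2
  linarith

/-- the constant of the next lemma -/
noncomputable def SS : ℝ := ∑' k : ℤ, 1 / (1 + (k : ℝ) ^ 2)

theorem SS_nonneg : 0 ≤ SS := tsum_nonneg fun k => by positivity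

theorem sum_sep {ι : Type*} [Fintype ι] {v : ι → ℝ} {s : ℝ} (hs : 0 < s) (hs1 : s ≤ 1)
    (hv : ∀ i j, i ≠ j → s ≤ |v i - v j|) :
    ∑ i, 1 / (1 + (v i) ^ 2 / 4) ≤ 8 / s ^ 2 * SS := by
  classical
  set φ : ι → ℤ := fun i => ⌊v i / s⌋ with hφ
  have hinj : Function.Injective φ := by
    intro i j hij
    by_contra hne
    have h := hv i j hne
    have h1 : |v i / s - v j / s| < 1 := Int.abs_sub_lt_one_of_floor_eq_floor hij
    rw [← sub_div, abs_div, abs_of_pos hs, div_lt_one hs] at h1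
    linarith
  have hterm : ∀ i, 1 / (1 + (v i) ^ 2 / 4) ≤ 8 / s ^ 2 * (1 / (1 + ((φ i : ℤ) : ℝ) ^ 2)) := by
    intro i
    set k : ℝ := ((φ i : ℤ) : ℝ) with hk
    have h1 : k ≤ v i / s := Int.floor_le _
    have h2 : v i / s < k + 1 := Int.lt_floor_add_one _
    have h3 : k ^ 2 ≤ 2 * (v i / s) ^ 2 + 2 := by nlinarith [sq_nonneg (v i / s + (v i / s - k)), sq_nonneg (2 * (v i / s) - k)]
    have h4 : (v i / s) ^ 2 * s ^ 2 = (v i) ^ 2 := by field_simp
    rw [div_mul_div_comm, mul_one, div_le_div_iff₀ (by positivity) (by positivity)]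
    have hs2 : s ^ 2 ≤ 1 := by nlinarith
    have h5 : s ^ 2 * k ^ 2 ≤ s ^ 2 * (2 * (v i / s) ^ 2 + 2) :=
      mul_le_mul_of_nonneg_left h3 (by positivity)
    nlinarith
  calc ∑ i, 1 / (1 + (v i) ^ 2 / 4)
      ≤ ∑ i, 8 / s ^ 2 * (1 / (1 + ((φ i : ℤ) : ℝ) ^ 2)) := Finset.sum_le_sum fun i _ => hterm i
    _ = 8 / s ^ 2 * ∑ i, 1 / (1 + ((φ i : ℤ) : ℝ) ^ 2) := by rw [Finset.mul_sum]
    _ ≤ 8 / s ^ 2 * SS := by
        apply mul_le_mul_of_nonneg_left _ (by positivity)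
        have h1 : ∑ i, 1 / (1 + ((φ i : ℤ) : ℝ) ^ 2) =
            ∑ k ∈ Finset.univ.image φ, 1 / (1 + (k : ℝ) ^ 2) := by
          rw [Finset.sum_image fun i _ j _ h => hinj h]
        rw [h1]
        exact summable_S.sum_le_tsum _ fun k _ => by positivity

/-- the bound of the sum of the beams on the band -/
noncomputable def C0 : ℝ := 8 / (1 / 64) ^ 2 * SS + 45

theorem C0_pos : 0 < C0 := by
  unfold C0
  have := SS_nonneg
  positivity

theorem sum_beams {J M K : ℕ} (hJ : 0 < J) (hM : 2 ≤ M) (hJM : J ≤ M) (hPM : P ≤ M)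
    (hP : ((P : ℝ) - 1) ≤ (1 - 4 / J) * ((M : ℝ) - 1))
    (hK : ((K : ℝ) + 1) * (((M : ℝ)⁻¹) ^ J) ^ 2 = 1 / 2) {x : E 2} (hx : x ∈ band 2) :
    ∑ t : Fin J → Fin P, ‖beam (Bt J M t) K x‖ ≤ C0 := by
  obtain ⟨hn, hx0⟩ := hx
  set δ : ℝ := ((M : ℝ)⁻¹) ^ J with hδ
  have hδ0 : 0 < δ := by rw [hδ]; positivity
  have hMr : (2 : ℝ) ≤ M := by exact_mod_cast hM
  have hJr : (0 : ℝ) < J := by exact_mod_cast hJ
  have hδ1 : δ ≤ 1 := by
    rw [hδ]; exact pow_le_one₀ (by positivity) (inv_le_one_of_one_le₀ (by linarith))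
  have hKe : ((K : ℝ) + 1) = 1 / (2 * δ ^ 2) := by
    field_simp
    linarith
  have hsq : x 0 ^ 2 + x 1 ^ 2 + x 2 ^ 2 = 1 := by
    have e : ‖x‖ ^ 2 = x 0 ^ 2 + x 1 ^ 2 + x 2 ^ 2 := by
      rw [EuclideanSpace.norm_sq_eq, Fin.sum_univ_three]
      simp
    rw [← e, hn]; norm_num
  have hx01 : |x 0| ≤ 1 := by linarith
  have hbeam : ∀ t : Fin J → Fin P, ‖beam (Bt J M t) K x‖ ≤
      1 / (1 + (ell J M t x / δ) ^ 2 / 4) := by
    intro t
    refine (beam_upper hM hPM le_rfl t hn).trans (le_of_eq ?_)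
    congr 2
    rw [hKe]
    field_simp
    ring
  have hSS := SS_nonneg
  by_cases hc : 1 / 4 ≤ |x 1|
  · have hsep : ∀ t t' : Fin J → Fin P, t ≠ t' → 1 / 64 ≤ |ell J M t x / δ - ell J M t' x / δ| := by
      intro t t' hne
      obtain ⟨σ, hσ, hσx⟩ : ∃ σ : ℝ, |σ| = 1 ∧ σ * x 1 = |x 1| := by
        rcases le_total 0 (x 1) with h | h
        · exact ⟨1, by simp, by rw [abs_of_nonneg h, one_mul]⟩
        · exact ⟨-1, by simp, by rw [abs_of_nonpos h]; ring⟩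
      have h := ell_sep hM hJM hP hne hx01 hσ (x := x) ?_
      · rw [← sub_div, abs_div, abs_of_pos hδ0, le_div_iff₀ hδ0]
        exact h
      · intro j hj
        have h1 : ((j : ℝ) + 1) / J ≤ 1 := by
          rw [div_le_one hJr]
          exact_mod_cast (by omega : j + 1 ≤ J)
        have h2 : 0 ≤ ((j : ℝ) + 1) / J := by positivity
        have h3 : σ * (x 1 - 1 / 8 * (((j : ℝ) + 1) / J) * x 0) =
            |x 1| - 1 / 8 * (((j : ℝ) + 1) / J) * (σ * x 0) := by rw [← hσx]; ring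
        rw [h3]
        have h4 : σ * x 0 ≤ 1 := by
          have : |σ * x 0| ≤ 1 := by rw [abs_mul, hσ, one_mul]; exact hx01
          exact (abs_le.1 this).2
        have h5 : 1 / 8 * (((j : ℝ) + 1) / J) * (σ * x 0) ≤ 1 / 8 * (((j : ℝ) + 1) / J) * 1 :=
          mul_le_mul_of_nonneg_left h4 (by positivity)
        linarith
    have h1 := sum_sep (v := fun t : Fin J → Fin P => ell J M t x / δ) (s := 1 / 64)
      (by norm_num) (by norm_num) hsep
    refine (Finset.sum_le_sum fun t _ => hbeam t).trans (h1.trans ?_)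
    unfold C0
    linarith
  · push Not at hc
    have hx2 : (127 : ℝ) / 1000 ≤ x 2 ^ 2 := by
      have h1 : x 0 ^ 2 ≤ 81 / 100 := by rw [← sq_abs]; nlinarith [abs_nonneg (x 0)]
      have h2 : x 1 ^ 2 ≤ 1 / 16 := by rw [← sq_abs]; nlinarith [abs_nonneg (x 1)]
      linarith
    have hx2' : 35 / 100 ≤ |x 2| := by
      rw [← sq_abs] at hx2
      nlinarith [abs_nonneg (x 2)]
    have hell : ∀ t : Fin J → Fin P, 3 / 10 ≤ |ell J M t x| := by
      intro t
      rw [ell_eq]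
      have a1 := al_nonneg M t
      have a2 := al_le hM hPM t
      have a3 := be_nonneg J M t
      have a4 := be_le hM hPM le_rfl t
      have b1 : |al M t * x 1| ≤ 1 / 8 * (1 / 4) := by
        rw [abs_mul, abs_of_nonneg a1]
        exact mul_le_mul a2 hc.le (abs_nonneg _) (by norm_num)
      have b2 : |be J M t * x 0| ≤ 1 / 64 * 1 := by
        rw [abs_mul, abs_of_nonneg a3]
        exact mul_le_mul a4 hx01 (abs_nonneg _) (by norm_num)
      have b3 : |x 2| - |al M t * x 1 - be J M t * x 0| ≤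
          |x 2 - (al M t * x 1 - be J M t * x 0)| := abs_sub_abs_le_abs_sub _ _
      have b4 : |al M t * x 1 - be J M t * x 0| ≤ |al M t * x 1| + |be J M t * x 0| :=
        abs_sub _ _
      have e : x 2 - al M t * x 1 + be J M t * x 0 = x 2 - (al M t * x 1 - be J M t * x 0) := by
        ring
      rw [e]
      linarith
    have hb2 : ∀ t : Fin J → Fin P, ‖beam (Bt J M t) K x‖ ≤ 45 * δ ^ 2 := by
      intro t
      refine (hbeam t).trans ?_
      have h1 : (9 : ℝ) / 100 ≤ (ell J M t x) ^ 2 := by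
        rw [← sq_abs]; nlinarith [hell t]
      rw [div_pow, div_le_iff₀ (by positivity)]
      have h2 : 45 * δ ^ 2 * (1 + (ell J M t x) ^ 2 / δ ^ 2 / 4) =
          45 * δ ^ 2 + 45 / 4 * (ell J M t x) ^ 2 := by field_simp
      rw [h2]
      have h3 : 0 ≤ 45 * δ ^ 2 := by positivity
      linarith
    refine (Finset.sum_le_sum fun t _ => hb2 t).trans ?_
    rw [Finset.sum_const, Finset.card_univ, Fintype.card_fun, Fintype.card_fin, Fintype.card_fin,
      nsmul_eq_mul]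
    have h1 : ((P ^ J : ℕ) : ℝ) * δ ≤ 1 := by
      push_cast
      rw [hδ, ← mul_pow]
      apply pow_le_one₀ (by positivity)
      rw [← div_eq_mul_inv, div_le_one (by positivity)]
      exact_mod_cast hPM
    have h2 : ((P ^ J : ℕ) : ℝ) * (45 * δ ^ 2) = 45 * ((((P ^ J : ℕ) : ℝ) * δ) * δ) := by ring
    rw [h2]
    have h3 : (((P ^ J : ℕ) : ℝ) * δ) * δ ≤ 1 * 1 :=
      mul_le_mul h1 hδ1 hδ0.le (by norm_num)
    unfold C0
    have : 0 ≤ 8 / (1 / 64) ^ 2 * SS := by positivity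
    linarith

end Pool.Agent.Helper855K
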