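import Pool.Agent.Helper855K.Lines

/-!
# MP_af75b4_an: the area of the thin tubes and of their union
-/

set_option autoImplicit false

open MeasureTheory Metric Set Filter Topology

namespace Pool.Agent.Helper855K

variable {P n : ℕ}

/-- a sheared box -/
def sbox (γ α β a0 b0 a1 b1 a2 b2 : ℝ) : Set (E 2) :=
  {x | x 0 ∈ Icc a0 b0 ∧ x 1 - γ * x 0 ∈ Icc a1 b1 ∧ x 2 - α * x 1 + β * x 0 ∈ Icc a2 b2}

theorem sbox_vol (γ α β a0 b0 a1 b1 a2 b2 : ℝ) :
    volume (sbox γ α β a0 b0 a1 b1 a2 b2) =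
      ENNReal.ofReal (b0 - a0) * ENNReal.ofReal (b1 - a1) * ENNReal.ofReal (b2 - a2) := by
  set f : (Fin 3 → ℝ) →ₗ[ℝ] (Fin 3 → ℝ) := Matrix.toLin' !![1, 0, 0; -γ, 1, 0; β, -α, 1] with hf
  have hdet : LinearMap.det f = 1 := by
    rw [hf, LinearMap.det_toLin', Matrix.det_fin_three]
    simp
  have hset : sbox γ α β a0 b0 a1 b1 a2 b2 =
      (WithLp.ofLp : E 2 → (Fin 3 → ℝ)) ⁻¹' (f ⁻¹' (Icc ![a0, a1, a2] ![b0, b1, b2])) := by
    ext x
    simp only [sbox, mem_setOf_eq, mem_preimage, mem_Icc, Pi.le_def, Fin.forall_fin_succ]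
    simp [hf, Matrix.vecHead, Matrix.vecTail, Matrix.mulVec, dotProduct, Fin.sum_univ_three]
    constructor
    · rintro ⟨⟨h1, h2⟩, ⟨h3, h4⟩, ⟨h5, h6⟩⟩
      refine ⟨⟨h1, ?_, ?_⟩, ⟨h2, ?_, ?_⟩⟩ <;> linarith
    · rintro ⟨⟨h1, h2, h3⟩, ⟨h4, h5, h6⟩⟩
      refine ⟨⟨h1, h4⟩, ⟨?_, ?_⟩, ⟨?_, ?_⟩⟩ <;> linarith
  have hmeas : MeasurableSet (f ⁻¹' (Icc ![a0, a1, a2] ![b0, b1, b2])) :=
    (f.continuous_of_finiteDimensional.measurable) measurableSet_Icc
  rw [hset, (PiLp.volume_preserving_ofLp (Fin 3)).measure_preimage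
    hmeas.nullMeasurableSet, Measure.addHaar_preimage_linearMap _ (by rw [hdet]; exact one_ne_zero),
    hdet, Real.volume_Icc_pi, Fin.prod_univ_three]
  simp

theorem al_nonneg (M : ℕ) (t : Fin n → Fin P) : 0 ≤ al M t := by
  unfold al
  have : 0 ≤ ∑ j ∈ Finset.range n, dig t j * ((M : ℝ)⁻¹) ^ (j + 1) :=
    Finset.sum_nonneg fun j _ => mul_nonneg (dig_nonneg t j) (by positivity)
  linarith

theorem al_le {M : ℕ} (hM : 2 ≤ M) (hPM : P ≤ M) (t : Fin n → Fin P) : al M t ≤ 1 / 8 := by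
  unfold al
  have hP1 : (P : ℝ) ≤ M := by exact_mod_cast hPM
  have : ∑ j ∈ Finset.range n, dig t j * ((M : ℝ)⁻¹) ^ (j + 1) ≤
      ∑ j ∈ Finset.range n, ((M : ℝ) - 1) * ((M : ℝ)⁻¹) ^ (j + 1) := by
    refine Finset.sum_le_sum fun j hj => mul_le_mul_of_nonneg_right ?_ (by positivity)
    exact (dig_le t (Finset.mem_range.1 hj)).trans (by linarith)
  have h2 := geomA_le hM n
  linarith

theorem be_nonneg (J M : ℕ) (t : Fin n → Fin P) : 0 ≤ be J M t := by
  unfold be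
  have : 0 ≤ ∑ j ∈ Finset.range n, dig t j * ((M : ℝ)⁻¹) ^ (j + 1) * (((j : ℝ) + 1) / J) :=
    Finset.sum_nonneg fun j _ => mul_nonneg (mul_nonneg (dig_nonneg t j) (by positivity))
      (by positivity)
  linarith

theorem be_le {J M : ℕ} (hM : 2 ≤ M) (hPM : P ≤ M) (hn : n ≤ J) (t : Fin n → Fin P) :
    be J M t ≤ 1 / 64 := by
  unfold be
  have hP1 : (P : ℝ) ≤ M := by exact_mod_cast hPM
  have : ∑ j ∈ Finset.range n, dig t j * ((M : ℝ)⁻¹) ^ (j + 1) * (((j : ℝ) + 1) / J) ≤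
      ∑ j ∈ Finset.range n, ((M : ℝ) - 1) * ((M : ℝ)⁻¹) ^ (j + 1) := by
    refine Finset.sum_le_sum fun j hj => ?_
    have hj' := Finset.mem_range.1 hj
    have h1 : ((j : ℝ) + 1) / J ≤ 1 := by
      have : 0 < J := by omega
      rw [div_le_one (by exact_mod_cast this)]
      have : j + 1 ≤ J := by omega
      exact_mod_cast this
    have h2 : dig t j ≤ (M : ℝ) - 1 := (dig_le t hj').trans (by linarith)
    have h3 : 0 ≤ dig t j * ((M : ℝ)⁻¹) ^ (j + 1) := mul_nonneg (dig_nonneg t j) (by positivity)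
    calc dig t j * ((M : ℝ)⁻¹) ^ (j + 1) * (((j : ℝ) + 1) / J)
        ≤ dig t j * ((M : ℝ)⁻¹) ^ (j + 1) * 1 := mul_le_mul_of_nonneg_left h1 h3
      _ ≤ ((M : ℝ) - 1) * ((M : ℝ)⁻¹) ^ (j + 1) := by
        rw [mul_one]; exact mul_le_mul_of_nonneg_right h2 (by positivity)
  have h2 := geomA_le hM n
  linarith

/-- the thin tube over the part of the sphere where the lines are compressed -/
def Tt (J M : ℕ) (t : Fin J → Fin P) : Set (E 2) :=
  {x | 0 < x 0 ∧ 0 ≤ x 1 ∧ x 1 ≤ 1 / 8 * x 0 ∧ |ell J M t x| ≤ ((M : ℝ)⁻¹) ^ J * x 0}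

theorem ell_continuous (J M : ℕ) (t : Fin n → Fin P) : Continuous (ell J M t) := by
  have : ell J M t = fun x : E 2 => x 2 - al M t * x 1 + be J M t * x 0 :=
    funext (ell_eq J M t)
  rw [this]
  fun_prop

theorem Tt_measurable (J M : ℕ) (t : Fin J → Fin P) : MeasurableSet (Tt J M t) := by
  have c : ∀ i : Fin 3, Continuous fun x : E 2 => x i := fun i => by fun_prop
  refine (measurableSet_lt measurable_const (c 0).measurable).inter ?_
  refine (measurableSet_le measurable_const (c 1).measurable).inter ?_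
  refine (measurableSet_le (c 1).measurable ((c 0).const_mul _).measurable).inter ?_
  exact measurableSet_le (ell_continuous J M t).abs.measurable ((c 0).const_mul _).measurable

theorem ell_smul (J M : ℕ) (t : Fin n → Fin P) (r : ℝ) (x : E 2) :
    ell J M t (r • x) = r * ell J M t x := by
  rw [ell_eq, ell_eq]
  simp
  ring

theorem Tt_hom (J M : ℕ) (t : Fin J → Fin P) (x : E 2) (r : ℝ) (hr : 0 < r) :
    r • x ∈ Tt J M t ↔ x ∈ Tt J M t := by
  unfold Tt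
  simp only [mem_setOf_eq, ell_smul, PiLp.smul_apply, smul_eq_mul]
  rw [abs_mul, abs_of_pos hr]
  constructor
  · rintro ⟨h1, h2, h3, h4⟩
    refine ⟨pos_of_mul_pos_right h1 hr.le, nonneg_of_mul_nonneg_right h2 hr, ?_, ?_⟩
    · have : r * x 1 ≤ r * (1 / 8 * x 0) := by linarith
      exact le_of_mul_le_mul_left this hr
    · have : r * |ell J M t x| ≤ r * (((M : ℝ)⁻¹) ^ J * x 0) := by linarith
      exact le_of_mul_le_mul_left this hr
  · rintro ⟨h1, h2, h3, h4⟩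
    refine ⟨by positivity, by positivity, ?_, ?_⟩
    · nlinarith
    · have := mul_le_mul_of_nonneg_left h4 hr.le
      linarith

theorem Tt_lower {J M : ℕ} (hM : 2 ≤ M) (hPM : P ≤ M) (t : Fin J → Fin P) :
    3 / 256 * ((M : ℝ)⁻¹) ^ J ≤ (dV 2).real (Tt J M t) := by
  set δ : ℝ := ((M : ℝ)⁻¹) ^ J with hδ
  have hδ0 : 0 < δ := by rw [hδ]; positivity
  have hMr : (2 : ℝ) ≤ M := by exact_mod_cast hM
  have hδ1 : δ ≤ 1 := by
    rw [hδ]; exact pow_le_one₀ (by positivity) (inv_le_one_of_one_le₀ (by linarith))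
  have hsub : sbox 0 (al M t) (be J M t) (1 / 4) (1 / 2) 0 (1 / 32) (-(δ / 4)) (δ / 4) ⊆
      Tt J M t ∩ (ball (0 : E 2) 1 \ {0}) := by
    rintro x ⟨⟨h1, h2⟩, ⟨h3, h4⟩, ⟨h5, h6⟩⟩
    rw [zero_mul, sub_zero] at h3 h4
    have a1 := al_nonneg M t
    have a2 := al_le hM hPM t
    have a3 := be_nonneg J M t
    have a4 := be_le hM hPM le_rfl t
    refine ⟨⟨by linarith, h3, by linarith, ?_⟩, ?_, ?_⟩
    · rw [ell_eq]
      have : |x 2 - al M t * x 1 + be J M t * x 0| ≤ δ / 4 := abs_le.2 ⟨h5, h6⟩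
      nlinarith
    · rw [mem_ball_zero_iff]
      have e : ‖x‖ ^ 2 = x 0 ^ 2 + x 1 ^ 2 + x 2 ^ 2 := by
        rw [EuclideanSpace.norm_sq_eq, Fin.sum_univ_three]
        simp
      have b1 : al M t * x 1 ≤ 1 / 8 * (1 / 32) := mul_le_mul a2 h4 h3 (by norm_num)
      have b2 : 0 ≤ al M t * x 1 := mul_nonneg a1 h3
      have b3 : be J M t * x 0 ≤ 1 / 64 * (1 / 2) := mul_le_mul a4 h2 (by linarith) (by norm_num)
      have b4 : 0 ≤ be J M t * x 0 := mul_nonneg a3 (by linarith)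
      have b5 : |x 2| ≤ 1 / 2 := by rw [abs_le]; constructor <;> linarith
      have b6 : x 2 ^ 2 ≤ 1 / 4 := by
        rw [← sq_abs]; nlinarith [abs_nonneg (x 2)]
      have : ‖x‖ ^ 2 < 1 := by rw [e]; nlinarith
      nlinarith [norm_nonneg x]
    · intro h
      rw [mem_singleton_iff] at h
      rw [h] at h1
      simp at h1
      linarith
  have h1 : volume (sbox 0 (al M t) (be J M t) (1 / 4) (1 / 2) 0 (1 / 32) (-(δ / 4)) (δ / 4)) ≤
      volume (Tt J M t ∩ (ball (0 : E 2) 1 \ {0})) := measure_mono hsub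
  rw [sbox_vol, ← ENNReal.ofReal_mul (by norm_num), ← ENNReal.ofReal_mul (by norm_num)] at h1
  have h2 : dV 2 (Tt J M t) = ((2 + 1 : ℕ) : ENNReal) * volume (Tt J M t ∩ (ball (0 : E 2) 1 \ {0})) :=
    dV_cone (Tt_measurable J M t) (Tt_hom J M t)
  have h3 : ENNReal.ofReal (3 / 256 * δ) ≤ dV 2 (Tt J M t) := by
    rw [h2]
    calc ENNReal.ofReal (3 / 256 * δ)
        = ((2 + 1 : ℕ) : ENNReal) *
          ENNReal.ofReal ((1 / 2 - 1 / 4) * (1 / 32 - 0) * (δ / 4 - -(δ / 4))) := by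
          rw [← ENNReal.ofReal_natCast, ← ENNReal.ofReal_mul (by positivity)]
          congr 1
          push_cast
          ring
      _ ≤ _ := by gcongr
  unfold Measure.real
  exact (ENNReal.ofReal_le_iff_le_toReal (measure_ne_top _ _)).1 h3

end Pool.Agent.Helper855K
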