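import Pool.Agent.Helper855K.Vol

/-!
# MP_af75b4_an: the union of the thin tubes has small area (a Kakeya set)
-/

set_option autoImplicit false

open MeasureTheory Metric Set Filter Topology

namespace Pool.Agent.Helper855K

variable {P : ℕ}

/-- half the width at level `m` -/
noncomputable def wid (J M m : ℕ) : ℝ := 1 / (32 * J) * ((M : ℝ)⁻¹) ^ m + ((M : ℝ)⁻¹) ^ J

theorem wid_nonneg (J M m : ℕ) : 0 ≤ wid J M m := by unfold wid; positivity

theorem cover {J M : ℕ} (hJ : 0 < J) (hM : 2 ≤ M) (hPM : P ≤ M) (t : Fin J → Fin P) {x : E 2}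
    (hx : x ∈ Tt J M t) (hx1 : x 0 ≤ 1) :
    ∃ m : Fin J, ∃ s : Fin m → Fin P,
      x ∈ sbox ((m : ℝ) / (8 * J)) (al M s) (be J M s) 0 1 0 (1 / (8 * J))
        (-wid J M m) (wid J M m) := by
  obtain ⟨h0, h1, h2, h3⟩ := hx
  have hJr : (0 : ℝ) < J := by exact_mod_cast hJ
  set z : ℝ := 8 * J * x 1 / x 0 with hz
  have hz0 : 0 ≤ z := by rw [hz]; positivity
  have hzJ : z ≤ J := by
    rw [hz, div_le_iff₀ h0]
    nlinarith
  obtain ⟨m, hmJ, hm1, hm2⟩ : ∃ m : ℕ, m < J ∧ (m : ℝ) ≤ z ∧ z ≤ m + 1 := by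
    rcases Nat.lt_or_ge ⌊z⌋₊ J with h | h
    · exact ⟨⌊z⌋₊, h, Nat.floor_le hz0, (Nat.lt_floor_add_one z).le⟩
    · refine ⟨J - 1, by omega, ?_, ?_⟩
      · have h4 : ((J - 1 : ℕ) : ℝ) ≤ (⌊z⌋₊ : ℝ) := by exact_mod_cast (by omega : J - 1 ≤ ⌊z⌋₊)
        exact h4.trans (Nat.floor_le hz0)
      · have h4 : ((J - 1 : ℕ) : ℝ) + 1 = J := by
          have : J - 1 + 1 = J := by omega
          exact_mod_cast this
        rw [h4]; exact hzJ
  have ha : 1 / 8 * ((m : ℝ) / J) * x 0 ≤ x 1 := by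
    rw [hz, le_div_iff₀ h0] at hm1
    have : 1 / 8 * ((m : ℝ) / J) * x 0 = (m * x 0) / (8 * J) := by field_simp
    rw [this, div_le_iff₀ (by positivity)]
    linarith
  have hb : x 1 ≤ 1 / 8 * (((m : ℝ) + 1) / J) * x 0 := by
    rw [hz, div_le_iff₀ h0] at hm2
    have : 1 / 8 * (((m : ℝ) + 1) / J) * x 0 = ((m + 1) * x 0) / (8 * J) := by field_simp
    rw [this, le_div_iff₀ (by positivity)]
    linarith
  have hpre := ell_prefix hM hJ hPM t hmJ ha hb h0.le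
  refine ⟨⟨m, hmJ⟩, fun i => t ⟨i, i.2.trans hmJ⟩, ⟨h0.le, hx1⟩, ⟨?_, ?_⟩, ?_⟩
  · have : (m : ℝ) / (8 * J) * x 0 = 1 / 8 * ((m : ℝ) / J) * x 0 := by field_simp
    rw [this]; linarith
  · have e1 : 1 / 8 * (((m : ℝ) + 1) / J) * x 0 = (m : ℝ) / (8 * J) * x 0 + 1 / (8 * J) * x 0 := by
      field_simp
    have e2 : 1 / (8 * (J : ℝ)) * x 0 ≤ 1 / (8 * J) * 1 :=
      mul_le_mul_of_nonneg_left hx1 (by positivity)
    linarith
  · have key : |ell J M (fun i : Fin m => t ⟨i, i.2.trans hmJ⟩) x| ≤ wid J M m := by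
      have e1 := abs_sub_abs_le_abs_sub (ell J M (fun i : Fin m => t ⟨i, i.2.trans hmJ⟩) x)
        (ell J M t x)
      rw [abs_sub_comm] at e1
      have e2 : 1 / (32 * (J : ℝ)) * ((M : ℝ)⁻¹) ^ m * x 0 ≤
          1 / (32 * J) * ((M : ℝ)⁻¹) ^ m * 1 :=
        mul_le_mul_of_nonneg_left hx1 (by positivity)
      have e3 : ((M : ℝ)⁻¹) ^ J * x 0 ≤ ((M : ℝ)⁻¹) ^ J * 1 :=
        mul_le_mul_of_nonneg_left hx1 (by positivity)
      unfold wid
      linarith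
    rw [ell_eq] at key
    exact abs_le.1 key

theorem sum_wid {J M : ℕ} (hJ : 0 < J) (hM : 2 ≤ M) (hPM : P ≤ M) :
    ∑ m : Fin J, ((P : ℝ) ^ (m : ℕ)) * (1 / (8 * J) * (2 * wid J M m)) ≤ 33 / (128 * J) := by
  have hJr : (0 : ℝ) < J := by exact_mod_cast hJ
  have hP1 : (P : ℝ) ≤ M := by exact_mod_cast hPM
  have hMr : (2 : ℝ) ≤ M := by exact_mod_cast hM
  have hM0 : (M : ℝ) ≠ 0 := by positivity
  have hterm : ∀ m ∈ Finset.range J, ((P : ℝ) ^ m) * (1 / (8 * J) * (2 * wid J M m)) ≤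
      1 / (4 * J) * (1 / (32 * J) + ((M : ℝ) - 1) * ((M : ℝ)⁻¹) ^ (J - 1 - m + 1)) := by
    intro m hm
    have hmJ : m < J := Finset.mem_range.1 hm
    have h1 : (P : ℝ) ^ m * ((M : ℝ)⁻¹) ^ m ≤ 1 := by
      rw [← mul_pow]
      apply pow_le_one₀ (by positivity)
      rw [← div_eq_mul_inv, div_le_one (by positivity)]
      exact hP1
    have h2 : (P : ℝ) ^ m * ((M : ℝ)⁻¹) ^ J ≤ ((M : ℝ)⁻¹) ^ (J - 1 - m + 1) := by
      have : ((M : ℝ)⁻¹) ^ J = ((M : ℝ)⁻¹) ^ m * ((M : ℝ)⁻¹) ^ (J - 1 - m + 1) := by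
        rw [← pow_add]; congr 1; omega
      rw [this, ← mul_assoc]
      have h3 : 0 ≤ ((M : ℝ)⁻¹) ^ (J - 1 - m + 1) := by positivity
      nlinarith
    have h3 : ((M : ℝ)⁻¹) ^ (J - 1 - m + 1) ≤ ((M : ℝ) - 1) * ((M : ℝ)⁻¹) ^ (J - 1 - m + 1) := by
      have h3 : 0 ≤ ((M : ℝ)⁻¹) ^ (J - 1 - m + 1) := by positivity
      nlinarith
    have e : ((P : ℝ) ^ m) * (1 / (8 * J) * (2 * wid J M m)) =
        1 / (4 * J) * (1 / (32 * J) * ((P : ℝ) ^ m * ((M : ℝ)⁻¹) ^ m) +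
          (P : ℝ) ^ m * ((M : ℝ)⁻¹) ^ J) := by
      unfold wid; field_simp; ring
    rw [e]
    apply mul_le_mul_of_nonneg_left _ (by positivity)
    have h4 : 1 / (32 * (J : ℝ)) * ((P : ℝ) ^ m * ((M : ℝ)⁻¹) ^ m) ≤ 1 / (32 * J) * 1 :=
      mul_le_mul_of_nonneg_left h1 (by positivity)
    linarith
  rw [Fin.sum_univ_eq_sum_range (fun m : ℕ => ((P : ℝ) ^ m) * (1 / (8 * J) * (2 * wid J M m))) J]
  refine (Finset.sum_le_sum hterm).trans ?_
  rw [← Finset.mul_sum, Finset.sum_add_distrib]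
  have h5 : ∑ m ∈ Finset.range J, ((M : ℝ) - 1) * ((M : ℝ)⁻¹) ^ (J - 1 - m + 1) =
      ∑ m ∈ Finset.range J, ((M : ℝ) - 1) * ((M : ℝ)⁻¹) ^ (m + 1) :=
    Finset.sum_range_reflect (fun m => ((M : ℝ) - 1) * ((M : ℝ)⁻¹) ^ (m + 1)) J
  rw [h5, Finset.sum_const, Finset.card_range, nsmul_eq_mul]
  have h6 := geomA_le hM J
  have h7 : (J : ℝ) * (1 / (32 * J)) = 1 / 32 := by field_simp
  rw [h7]
  have h8 : 33 / (128 * (J : ℝ)) = 1 / (4 * J) * (1 / 32 + 1) := by field_simp; norm_num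
  rw [h8]
  apply mul_le_mul_of_nonneg_left _ (by positivity)
  linarith

theorem union_upper {J M : ℕ} (hJ : 0 < J) (hM : 2 ≤ M) (hPM : P ≤ M) :
    (dV 2).real (⋃ t : Fin J → Fin P, Tt J M t) ≤ 1 / J := by
  have hJr : (0 : ℝ) < J := by exact_mod_cast hJ
  set K : Set (E 2) := ⋃ t : Fin J → Fin P, Tt J M t with hK
  have hKm : MeasurableSet K := MeasurableSet.iUnion fun t => Tt_measurable J M t
  have hKh : ∀ x : E 2, ∀ r : ℝ, 0 < r → (r • x ∈ K ↔ x ∈ K) := by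
    intro x r hr
    simp only [hK, mem_iUnion, Tt_hom J M _ x r hr]
  have hsub : K ∩ (ball (0 : E 2) 1 \ {0}) ⊆ ⋃ m : Fin J, ⋃ s : Fin m → Fin P,
      sbox ((m : ℝ) / (8 * J)) (al M s) (be J M s) 0 1 0 (1 / (8 * J))
        (-wid J M m) (wid J M m) := by
    rintro x ⟨hx, hb, -⟩
    obtain ⟨t, ht⟩ := mem_iUnion.1 hx
    have hx1 : x 0 ≤ 1 := by
      rw [mem_ball_zero_iff] at hb
      have h4 : ‖x 0‖ ≤ ‖x‖ := PiLp.norm_apply_le x 0
      rw [Real.norm_eq_abs] at h4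
      have := le_abs_self (x 0)
      linarith
    obtain ⟨m, s, hs⟩ := cover hJ hM hPM t ht hx1
    exact mem_iUnion.2 ⟨m, mem_iUnion.2 ⟨s, hs⟩⟩
  have hvol : volume (K ∩ (ball (0 : E 2) 1 \ {0})) ≤ ENNReal.ofReal (33 / (128 * J)) := by
    refine (measure_mono hsub).trans ((measure_iUnion_fintype_le _ _).trans ?_)
    have h1 : ∀ m : Fin J, volume (⋃ s : Fin m → Fin P,
        sbox ((m : ℝ) / (8 * J)) (al M s) (be J M s) 0 1 0 (1 / (8 * J))
          (-wid J M m) (wid J M m)) ≤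
        ENNReal.ofReal (((P : ℝ) ^ (m : ℕ)) * (1 / (8 * J) * (2 * wid J M m))) := by
      intro m
      refine (measure_iUnion_fintype_le _ _).trans ?_
      simp only [sbox_vol]
      rw [Finset.sum_const, Finset.card_univ, Fintype.card_fun, Fintype.card_fin, Fintype.card_fin,
        nsmul_eq_mul]
      rw [ENNReal.ofReal_mul (by positivity), ENNReal.ofReal_mul (by positivity)]
      apply le_of_eq
      congr 1
      · rw [ENNReal.ofReal_pow (by positivity), ENNReal.ofReal_natCast]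
        push_cast
        rfl
      · rw [sub_zero, ENNReal.ofReal_one, one_mul, sub_zero]
        congr 2
        ring
    refine (Finset.sum_le_sum fun m _ => h1 m).trans ?_
    rw [← ENNReal.ofReal_sum_of_nonneg]
    · exact ENNReal.ofReal_le_ofReal (sum_wid hJ hM hPM)
    · intro m _
      have := wid_nonneg J M m
      positivity
  have h2 : dV 2 K = ((2 + 1 : ℕ) : ENNReal) * volume (K ∩ (ball (0 : E 2) 1 \ {0})) :=
    dV_cone hKm hKh
  have h3 : dV 2 K ≤ ENNReal.ofReal (1 / J) := by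
    rw [h2]
    calc ((2 + 1 : ℕ) : ENNReal) * volume (K ∩ (ball (0 : E 2) 1 \ {0}))
        ≤ ((2 + 1 : ℕ) : ENNReal) * ENNReal.ofReal (33 / (128 * J)) := by gcongr
      _ = ENNReal.ofReal (3 * (33 / (128 * J))) := by
          rw [← ENNReal.ofReal_natCast, ← ENNReal.ofReal_mul (by positivity)]
          norm_num
      _ ≤ ENNReal.ofReal (1 / J) := by
          apply ENNReal.ofReal_le_ofReal
          have : 3 * (33 / (128 * (J : ℝ))) = 99 / 128 * (1 / J) := by field_simp; norm_num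
          rw [this]
          have : 0 < 1 / (J : ℝ) := by positivity
          linarith
  unfold Measure.real
  exact ENNReal.toReal_le_of_le_ofReal (by positivity) h3

end Pool.Agent.Helper855K
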